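import Pool.Agent.K6.H49.UGR.Alg
import Pool.Agent.K6.H49.UGQ.AlgP

/-!
# The algorithm which tries all short tuples runs in polynomial time
-/

set_option autoImplicit false

namespace Pool.Agent.K6.H49.UGR

open Pool.Agent.NPC
open Pool.Agent.K6.H49.UGX (Edge iterU)
open Pool.Agent.K6.H49.UGQ

theorem runY_bd (N : ℕ) (E : List (ℕ × ℕ)) {D a : ℕ} (hD : D ≤ E.length ^ (2 * a))
    {y : List (ℕ × ℕ)} {M : ℕ} (h : ∀ z ∈ y, z.1 ≤ M ∧ z.2 ≤ M) (b : ℕ) :
    ((flt N E D a)^[b] y).length ≤ N + y.length ∧ ∀ w ∈ (flt N E D a)^[b] y,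
      w.1 ≤ (2 * E.length ^ (2 * a)) ^ b * M ∧ w.2 ≤ (2 * E.length ^ (2 * a)) ^ b * M := by
  induction b with
  | zero =>
    refine ⟨Nat.le_add_left _ _, fun z hz => ?_⟩
    simpa using h z hz
  | succ b ih =>
    rw [Function.iterate_succ_apply']
    obtain ⟨_, h2⟩ := ih
    generalize (flt N E D a)^[b] y = y' at h2
    unfold flt
    obtain ⟨_, h4⟩ := iter_bd N E h2 a
    obtain ⟨h5, h6⟩ := step_bd N D h2 h4
    refine ⟨by omega, fun w hw => ?_⟩
    have h7 := h6 w hw
    have h8 : D * ((2 * E.length ^ (2 * a)) ^ b * M) + E.length ^ (2 * a) *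
        ((2 * E.length ^ (2 * a)) ^ b * M) ≤ (2 * E.length ^ (2 * a)) ^ (b + 1) * M := by
      rw [pow_succ]
      calc _ ≤ E.length ^ (2 * a) * ((2 * E.length ^ (2 * a)) ^ b * M) + E.length ^ (2 * a) *
          ((2 * E.length ^ (2 * a)) ^ b * M) := by gcongr
        _ = _ := by ring
    exact ⟨h7.1.trans h8, h7.2.trans h8⟩

theorem runY_sz (N : ℕ) (E : List (ℕ × ℕ)) {D a : ℕ} (hD : D ≤ E.length ^ (2 * a))
    (y : List (ℕ × ℕ)) (b : ℕ) : sz ((flt N E D a)^[b] y) ≤
      (N + sz y) * (8 * ((E.length * (2 * a) + 2) * b + 1 + sz y) + 4) + 1 := by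
  obtain ⟨h1, h2⟩ := runY_bd N E hD (M := 2 ^ sz y) (fun z hz => mem_lt hz) b
  generalize (flt N E D a)^[b] y = w at h1 h2
  have h3 := lst_sz (m := (E.length * (2 * a) + 2) * b + 1 + sz y) (rfl : w.length = w.length)
    fun z hz => by
    obtain ⟨a1, a2⟩ := h2 z hz
    have h4 : (2 * E.length ^ (2 * a)) ^ b * 2 ^ sz y <
        2 ^ ((E.length * (2 * a) + 2) * b + 1 + sz y) := by
      rw [pow_add]
      refine Nat.mul_lt_mul_of_pos_right ?_ (by positivity)
      have h5 : 2 * E.length ^ (2 * a) ≤ 2 ^ (E.length * (2 * a) + 2) := by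
        have := pow_lt_two E.length (2 * a)
        have h6 : 2 ^ (E.length * (2 * a) + 2) = 2 * 2 ^ (E.length * (2 * a) + 1) := by ring
        omega
      calc (2 * E.length ^ (2 * a)) ^ b ≤ (2 ^ (E.length * (2 * a) + 2)) ^ b :=
            Nat.pow_le_pow_left h5 _
        _ = 2 ^ ((E.length * (2 * a) + 2) * b) := by rw [pow_mul]
        _ < _ := Nat.pow_lt_pow_right (by omega) (by omega)
    exact ⟨a1.trans_lt h4, a2.trans_lt h4⟩
  have h5 := length_lt_sz y
  refine h3.trans ?_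
  have h6 : w.length ≤ N + sz y := by omega
  exact Nat.add_le_add_right (Nat.mul_le_mul_right _ h6) 1

theorem pickR_le (q Db : ℕ) (rs : List ℕ) (w : List (ℕ × ℕ)) (u : ℕ) :
    pickR q Db rs w u ≤ q := by
  unfold pickR
  generalize hL : ((List.range q).filter fun i => (List.range q).all fun j =>
      cmpR Db rs w (u * q + j) (u * q + i)) = L
  cases L with
  | nil => exact Nat.zero_le _
  | cons i L =>
    simp only [List.head?_cons, Option.getD_some]
    have hi : i ∈ (List.range q).filter fun i => (List.range q).all fun j =>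
      cmpR Db rs w (u * q + j) (u * q + i) := by
      rw [hL]; exact List.mem_cons_self
    exact (List.mem_range.1 (List.mem_filter.1 hi).1).le

theorem sm_startR (n q Db : ℕ) (rs : List ℕ) (w : List (ℕ × ℕ)) :
    Sm n q (startR n q Db rs w) := by
  refine ⟨by simp [startR], fun z hz => ?_⟩
  unfold startR at hz
  obtain ⟨u, _, rfl⟩ := List.mem_map.1 hz
  exact pickR_le _ _ _ _ _

section Pol

variable {α : Type} [TEnc α]

theorem poly_cnt {rs : α → List ℕ} {s : α → ℕ} (hrs : Poly rs) (hs : Poly s) :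
    Poly (fun a => cnt (rs a) (s a)) := by
  unfold cnt
  exact Poly.length (Poly.filter (p := fun a r => decide (r = s a)) hrs (by fun_prop))

theorem poly_cnL {N : α → ℕ} {rs : α → List ℕ} (hN : UPoly N) (hrs : Poly rs) :
    Poly (fun a => cnL (N a) (rs a)) := by
  unfold cnL
  refine NPC.Poly.map (F := fun a s => (cnt (rs a) s, 0)) hN.range ?_
  exact Poly.pair (poly_cnt (hrs.comp (Poly.fst Poly.id)) (Poly.snd Poly.id)) (NPC.Poly.const 0)

theorem poly_runY {N D m b : α → ℕ} {E y : α → List (ℕ × ℕ)} (hN : UPoly N) (hE : Poly E)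
    (hD : Poly D) (hm : UPoly m) (hb : UPoly b) (hy : Poly y)
    (hDE : ∀ a, D a ≤ (E a).length ^ (2 * m a)) :
    Poly (fun a => (flt (N a) (E a) (D a) (m a))^[b a] (y a)) := by
  have hL : UPoly (fun a => (E a).length) := UPoly.length hE
  obtain ⟨p1, hp1⟩ := uPoly_le hN
  obtain ⟨p2, hp2⟩ := uPoly_le hL
  obtain ⟨p3, hp3⟩ := uPoly_le hm
  obtain ⟨p4, hp4⟩ := uPoly_le hb
  obtain ⟨p5, hp5⟩ := NPC.Poly.sz_le hy
  refine iterU hb hy (F := fun a w => flt (N a) (E a) (D a) (m a) w)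
    (poly_flt (hN.comp (Poly.fst Poly.id)) (by fun_prop) (by fun_prop)
      (hm.comp (Poly.fst Poly.id)) (Poly.snd Poly.id))
    ((p1 + p5) * (Polynomial.C 8 * ((p2 * (Polynomial.C 2 * p3) + Polynomial.C 2) * p4 +
      Polynomial.C 1 + p5) + Polynomial.C 4) + Polynomial.C 1) fun a k hk => ?_
  refine (runY_sz (N a) (E a) (hDE a) (y a) k).trans ?_
  simp only [Polynomial.eval_mul, Polynomial.eval_add, Polynomial.eval_C]
  have h1 := hp1 a
  have h2 := hp2 a
  have h3 := hp3 a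
  have h4 := hk.trans (hp4 a)
  have h5 := hp5 a
  gcongr

theorem poly_cmpR {Db s s' : α → ℕ} {rs : α → List ℕ} {w : α → List (ℕ × ℕ)} (hDb : Poly Db)
    (hrs : Poly rs) (hs : Poly s) (hs' : Poly s') (hw : Poly w) :
    Poly (fun a => cmpR (Db a) (rs a) (w a) (s a) (s' a)) := by
  unfold cmpR
  have h1 : Poly (fun a => cnt (rs a) (s a)) := poly_cnt hrs hs
  have h2 : Poly (fun a => cnt (rs a) (s' a)) := poly_cnt hrs hs'
  exact Poly.decide_le (by fun_prop) (by fun_prop)

theorem poly_pickR (q : ℕ) {Db u : α → ℕ} {rs : α → List ℕ} {w : α → List (ℕ × ℕ)}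
    (hDb : Poly Db) (hrs : Poly rs) (hw : Poly w) (hu : Poly u) :
    Poly (fun a => pickR q (Db a) (rs a) (w a) (u a)) := by
  unfold pickR
  refine Poly.optGetD (Poly.head? (Poly.filter (p := fun a i => (List.range q).all fun j =>
    cmpR (Db a) (rs a) (w a) (u a * q + j) (u a * q + i)) (NPC.Poly.const _) ?_))
    (NPC.Poly.const _)
  refine Poly.all (p := fun (p : α × ℕ) j =>
    cmpR (Db p.1) (rs p.1) (w p.1) (u p.1 * q + j) (u p.1 * q + p.2)) (NPC.Poly.const _) ?_
  exact poly_cmpR (by fun_prop) (by fun_prop) (by fun_prop) (by fun_prop) (by fun_prop)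

theorem poly_startR (q : ℕ) {n Db : α → ℕ} {rs : α → List ℕ} {w : α → List (ℕ × ℕ)}
    (hn : UPoly n) (hDb : Poly Db) (hrs : Poly rs) (hw : Poly w) :
    Poly (fun a => startR (n a) q (Db a) (rs a) (w a)) := by
  unfold startR
  exact NPC.Poly.map (F := fun a u => pickR q (Db a) (rs a) (w a) u) hn.range
    (poly_pickR q (by fun_prop) (by fun_prop) (by fun_prop) (by fun_prop))

theorem poly_tup (s : ℕ) {R : α → List ℕ} (hR : Poly R) : Poly (fun a => tup s (R a)) := by
  induction s with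
  | zero =>
    have : (fun a => tup 0 (R a)) = fun _ => ([[]] : List (List ℕ)) := rfl
    rw [this]
    exact NPC.Poly.const _
  | succ s ih =>
    refine NPC.Poly.flatMap (F := fun a r => (tup s (R a)).map fun t => r :: t) hR ?_
    refine NPC.Poly.map (F := fun (p : α × ℕ) t => p.2 :: t) (ih.comp (Poly.fst Poly.id)) ?_
    fun_prop

end Pol

/-- The cut off power. -/
def tr (T0 : ℕ) (p : (Dt × List ℕ) × ℕ) : ℕ := min p.2 (nn p.1.1 + T0)

theorem uPoly_tr (T0 : ℕ) : UPoly (tr T0) := by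
  have h1 : UPoly (fun p : (Dt × List ℕ) × ℕ => nn p.1.1 + T0) :=
    UPoly.add (uPoly_nn.comp (Poly.fst (Poly.fst Poly.id))) (UPoly.const T0)
  refine UPoly.of_le (n := fun p : (Dt × List ℕ) × ℕ => nn p.1.1 + T0) ?_ h1
    fun a => Nat.min_le_right _ _
  unfold tr
  exact Poly.min (Poly.snd Poly.id) h1.toPoly

theorem poly_startG (K c T0 : ℕ) {q : ℕ} (hq : 1 ≤ q) : Poly (fun p : (Dt × List ℕ) × ℕ =>
    startG K c (nn p.1.1) q p.1.1.2 p.1.2 (tr T0 p)) := by
  unfold startG
  have hn : UPoly (fun p : (Dt × List ℕ) × ℕ => nn p.1.1) :=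
    uPoly_nn.comp (Poly.fst (Poly.fst Poly.id))
  have hT := uPoly_tr T0
  have hl : Poly (fun p : (Dt × List ℕ) × ℕ => p.1.1.2) := by fun_prop
  have hrs : Poly (fun p : (Dt × List ℕ) × ℕ => p.1.2) := by fun_prop
  have hm : UPoly (fun p : (Dt × List ℕ) × ℕ => K * tr T0 p) := UPoly.mul (UPoly.const K) hT
  have hD : Poly (fun p : (Dt × List ℕ) × ℕ => dg p.1.1.2 ^ (2 * (K * tr T0 p))) :=
    poly_pow (poly_dg hl) (UPoly.mul (UPoly.const 2) hm)
  have hb : UPoly (fun p : (Dt × List ℕ) × ℕ => c * nn p.1.1) := UPoly.mul (UPoly.const c) hn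
  have hDb := poly_pow hD hb
  have hN : UPoly (fun p : (Dt × List ℕ) × ℕ => nn p.1.1 * q) := UPoly.mul hn (UPoly.const q)
  refine poly_startR q hn hDb hrs ?_
  unfold runR
  refine poly_runY hN (poly_ext q hl) hD hm hb (poly_cnL hN hrs) fun p => ?_
  refine Nat.pow_le_pow_left ?_ _
  rw [ext_length]
  exact (dg_le _).trans (Nat.le_mul_of_pos_right _ hq)

theorem poly_algR (K c T0 s : ℕ) {q : ℕ} (hq : 1 ≤ q) :
    Poly (fun a : Dt => algR K c T0 s (nn a) q a.2) := by
  have h : Poly (fun a : Dt => best a.2 ((tup s (List.range (nn a * q))).flatMap fun rs =>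
      (List.range (nn a + T0 + 1)).map fun T =>
        cand (nn a) q a.2 (startG K c (nn a) q a.2 rs (tr T0 ((a, rs), T))))) := by
    refine poly_best (Poly.snd Poly.id) ?_
    refine NPC.Poly.flatMap (F := fun (a : Dt) (rs : List ℕ) =>
      (List.range (nn a + T0 + 1)).map fun T =>
        cand (nn a) q a.2 (startG K c (nn a) q a.2 rs (tr T0 ((a, rs), T))))
      (poly_tup s (UPoly.mul uPoly_nn (UPoly.const q)).range) ?_
    refine NPC.Poly.map (F := fun (p : Dt × List ℕ) (T : ℕ) =>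
      cand (nn p.1) q p.1.2 (startG K c (nn p.1) q p.1.2 p.2 (tr T0 (p, T)))) ?_ ?_
    · exact (UPoly.add (UPoly.add (uPoly_nn.comp (Poly.fst Poly.id)) (UPoly.const T0))
        (UPoly.const 1)).range
    · exact poly_cand q (uPoly_nn.comp (Poly.fst (Poly.fst Poly.id))) (by fun_prop)
        (poly_startG K c T0 hq) fun p => sm_startR _ _ _ _ _
  refine h.congr fun a => ?_
  unfold algR
  congr 2
  funext rs
  refine List.map_congr_left fun T hT => ?_
  rw [List.mem_range] at hT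
  have : tr T0 ((a, rs), T) = T := Nat.min_eq_left (by simp only; omega)
  rw [this]

/-- The algorithm. -/
def algo (K c T0 s q : ℕ) (G : UGX.Game) : List ℕ × List ℕ := algR K c T0 s (nn G) q G.2

theorem poly_algo (K c T0 s : ℕ) {q : ℕ} (hq : 1 ≤ q) : Poly (algo K c T0 s q) :=
  poly_algR K c T0 s hq

end Pool.Agent.K6.H49.UGR
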