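import Pool.Agent.K6.H49.UGR.Tup
import Pool.Agent.K6.H49.UGQ.Alg2

/-!
# The algorithm which tries all short tuples of labeled vertices
-/

set_option autoImplicit false

open Finset

namespace Pool.Agent.K6.H49.UGR

open Pool.Agent.K6.H49.UGX (Edge)
open Pool.Agent.K6.H49.UGQ

/-- The sum of unit vectors. -/
def cnL (N : ℕ) (rs : List ℕ) : List (ℕ × ℕ) := (List.range N).map fun s => (cnt rs s, 0)

def runR (N : ℕ) (E : List (ℕ × ℕ)) (D a b : ℕ) (rs : List ℕ) : List (ℕ × ℕ) :=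
  (flt N E D a)^[b] (cnL N rs)

/-- The comparison of two entries of the filtered vector (`Db` is `D ^ b`). -/
def cmpR (Db : ℕ) (rs : List ℕ) (w : List (ℕ × ℕ)) (s s' : ℕ) : Bool :=
  decide (Db * cnt rs s + (w.getD s (0, 0)).2 + (w.getD s' (0, 0)).1 ≤
    Db * cnt rs s' + (w.getD s' (0, 0)).2 + (w.getD s (0, 0)).1)

def pickR (q Db : ℕ) (rs : List ℕ) (w : List (ℕ × ℕ)) (u : ℕ) : ℕ :=
  (((List.range q).filter fun i => (List.range q).all fun j =>
    cmpR Db rs w (u * q + j) (u * q + i)).head?).getD 0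

/-- The rounding of a filtered vector. -/
def startR (n q Db : ℕ) (rs : List ℕ) (w : List (ℕ × ℕ)) : List ℕ :=
  (List.range n).map (pickR q Db rs w)

/-- All lists of `s` elements of `R`. -/
def tup : ℕ → List ℕ → List (List ℕ)
  | 0, _ => [[]]
  | s + 1, R => R.flatMap fun r => (tup s R).map fun t => r :: t

theorem mem_tup {R : List ℕ} (t : List ℕ) (h : ∀ r ∈ t, r ∈ R) : t ∈ tup t.length R := by
  induction t with
  | nil => simp [tup]
  | cons r t ih =>
    simp only [List.length_cons, tup, List.mem_flatMap, List.mem_map]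
    exact ⟨r, h r List.mem_cons_self, t, ih fun r' hr' => h r' (List.mem_cons_of_mem _ hr'), rfl⟩

section Filter

variable {N : ℕ} {E : List (ℕ × ℕ)}

theorem vl_runR (hE : ∀ p ∈ E, p.1 < N ∧ p.2 < N) (D a b : ℕ) (rs : List ℕ) :
    ∀ s < N, vl (runR N E D a b rs) s = (Fl E D a)^[b] (un' rs) s := by
  unfold runR
  induction b with
  | zero =>
    intro s hs
    simp only [Function.iterate_zero, id_eq]
    unfold vl cnL un'
    rw [getD_range_map, if_pos hs]
    simp
  | succ b ih =>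
    intro s hs
    rw [Function.iterate_succ_apply', Function.iterate_succ_apply']
    generalize (flt N E D a)^[b] (cnL N rs) = y at ih
    generalize (Fl E (D : ℝ) a)^[b] (un' rs) = W at ih ⊢
    unfold flt Fl
    rw [vl_step _ _ _ _ hs, vl_dbl_iter hE _ _ s hs, ih s hs, Mo_iter_congr hE ih a s hs]

theorem cmpR_iff (hE : ∀ p ∈ E, p.1 < N ∧ p.2 < N) {D : ℕ} (hD : 0 < D) (a b : ℕ)
    (rs : List ℕ) {s s' : ℕ} (hs : s < N) (hs' : s' < N) :
    cmpR (D ^ b) rs (runR N E D a b rs) s s' = true ↔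
      zw E D a b rs s ≤ zw E D a b rs s' := by
  have h1 := vl_runR hE D a b rs s hs
  have h2 := vl_runR hE D a b rs s' hs'
  have hDb : (0 : ℝ) < (D : ℝ) ^ b := by positivity
  unfold zw
  rw [← h1, ← h2]
  unfold cmpR
  rw [decide_eq_true_eq]
  have e1 : un' rs s - vl (runR N E D a b rs) s / (D : ℝ) ^ b =
      ((D : ℝ) ^ b * un' rs s - vl (runR N E D a b rs) s) / (D : ℝ) ^ b := by field_simp
  have e2 : un' rs s' - vl (runR N E D a b rs) s' / (D : ℝ) ^ b =
      ((D : ℝ) ^ b * un' rs s' - vl (runR N E D a b rs) s') / (D : ℝ) ^ b := by field_simp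
  rw [e1, e2, div_le_div_iff_of_pos_right hDb]
  unfold vl un'
  generalize (runR N E D a b rs).getD s (0, 0) = w
  generalize (runR N E D a b rs).getD s' (0, 0) = w'
  have e3 : ∀ t, (D : ℝ) ^ b * (cnt rs t : ℝ) = ((D ^ b * cnt rs t : ℕ) : ℝ) := by
    intro t
    push_cast
    ring
  rw [e3, e3]
  generalize D ^ b * cnt rs s = A
  generalize D ^ b * cnt rs s' = A'
  constructor
  · intro h
    have h' : ((A + w.2 + w'.1 : ℕ) : ℝ) ≤ ((A' + w'.2 + w.1 : ℕ) : ℝ) := by exact_mod_cast h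
    push_cast at h'
    linarith
  · intro h
    have h' : ((A + w.2 + w'.1 : ℕ) : ℝ) ≤ ((A' + w'.2 + w.1 : ℕ) : ℝ) := by
      push_cast
      linarith
    exact_mod_cast h'

/-- The chosen label is a maximizer. -/
theorem pickR_ok {n q : ℕ} {E : List (ℕ × ℕ)} (hE : ∀ p ∈ E, p.1 < n * q ∧ p.2 < n * q)
    (hq : 0 < q) {D : ℕ} (hD : 0 < D) (a b : ℕ) (rs : List ℕ) {u : ℕ} (hu : u < n) :
    pickR q (D ^ b) rs (runR (n * q) E D a b rs) u < q ∧ ∀ i < q,
      zw E D a b rs (u * q + i) ≤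
        zw E D a b rs (u * q + pickR q (D ^ b) rs (runR (n * q) E D a b rs) u) := by
  obtain ⟨i0, hi0, hmax⟩ := exists_max_image (range q) (fun i => zw E D a b rs (u * q + i))
    ⟨0, mem_range.2 hq⟩
  rw [mem_range] at hi0
  have hmem : i0 ∈ (List.range q).filter fun i => (List.range q).all fun j =>
      cmpR (D ^ b) rs (runR (n * q) E D a b rs) (u * q + j) (u * q + i) := by
    rw [List.mem_filter, List.all_eq_true]
    refine ⟨List.mem_range.2 hi0, fun j hj => ?_⟩
    rw [List.mem_range] at hj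
    rw [cmpR_iff hE hD a b rs (node_lt hu hj) (node_lt hu hi0)]
    exact hmax j (mem_range.2 hj)
  unfold pickR
  generalize hL : ((List.range q).filter fun i => (List.range q).all fun j =>
      cmpR (D ^ b) rs (runR (n * q) E D a b rs) (u * q + j) (u * q + i)) = L at hmem
  cases L with
  | nil => exact absurd hmem List.not_mem_nil
  | cons i L =>
    simp only [List.head?_cons, Option.getD_some]
    have hi : i ∈ (List.range q).filter fun i => (List.range q).all fun j =>
      cmpR (D ^ b) rs (runR (n * q) E D a b rs) (u * q + j) (u * q + i) := by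
      rw [hL]; exact List.mem_cons_self
    rw [List.mem_filter, List.all_eq_true, List.mem_range] at hi
    refine ⟨hi.1, fun j hj => ?_⟩
    exact (cmpR_iff hE hD a b rs (node_lt hu hj) (node_lt hu hi.1)).1
      (hi.2 j (List.mem_range.2 hj))

end Filter

/-- The labelings of the left vertices from which the rounds are started. -/
def startG (K c n q : ℕ) (l : List Edge) (rs : List ℕ) (T : ℕ) : List ℕ :=
  startR n q ((dg l ^ (2 * (K * T))) ^ (c * n)) rs
    (runR (n * q) (ext q l) (dg l ^ (2 * (K * T))) (K * T) (c * n) rs)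

/-- The algorithm. -/
def algR (K c T0 s n q : ℕ) (l : List Edge) : List ℕ × List ℕ :=
  best l ((tup s (List.range (n * q))).flatMap fun rs => (List.range (n + T0 + 1)).map fun T =>
    cand n q l (startG K c n q l rs T))

section Params

/-- The parameters. -/
theorem params' {q n : ℕ} (hq : 1 ≤ q) (hn : 1 ≤ n) {K c T : ℕ} (hK : K = 16384)
    (hc : c = 40 * 2 ^ (q + 4)) (hT : T = Nat.size n + (q + 4)) {ε : ℝ}
    (hε : 10000 * K * ε ≤ 1) :
    3 / (K : ℝ) ≤ 1 / 4096 ∧
    (1 - 1 / (2 * (K : ℝ))) < 1 ∧ 0 ≤ 1 - 1 / (2 * (K : ℝ)) ∧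
    1 ≤ (1 / 20) * (((c * n : ℕ) : ℝ) * (1 - 1 / (2 * (K : ℝ))) ^ (K * T)) ∧
    2 * Tw n q (1000 * q) (3 / K) ε (1 - 1 / (2 * K)) (1 / 20) (K * T) (c * n) ≤ 1 / 16 := by
  have hqR : (1 : ℝ) ≤ q := by exact_mod_cast hq
  have hnR : (1 : ℝ) ≤ n := by exact_mod_cast hn
  have hKR : (K : ℝ) = 16384 := by rw [hK]; norm_num
  have hK0 : (0 : ℝ) < K := by rw [hKR]; norm_num
  have hK0' : (K : ℝ) ≠ 0 := hK0.ne'
  -- powers
  have p1 : (1 : ℝ) / 2 ≤ (1 - 1 / (2 * (K : ℝ))) ^ K := by
    have h0 : (-2 : ℝ) ≤ -(1 / (2 * K)) := by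
      rw [hKR]
      norm_num
    have h1 := one_add_mul_le_pow h0 K
    have h2 : 1 + (K : ℝ) * -(1 / (2 * K)) = 1 / 2 := by field_simp; ring
    rw [h2] at h1
    have h3 : (1 : ℝ) + -(1 / (2 * K)) = 1 - 1 / (2 * K) := by ring
    rwa [h3] at h1
  have p2 : (1 - 3 / (K : ℝ)) ^ K ≤ 1 / 16 := by
    have h0 : 0 ≤ 1 - 3 / (K : ℝ) := by
      rw [hKR]
      norm_num
    have h1 : 1 - 3 / (K : ℝ) ≤ Real.exp (-(3 / K)) := by
      have := Real.add_one_le_exp (-(3 / (K : ℝ)))
      linarith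
    have h2 : (1 - 3 / (K : ℝ)) ^ K ≤ Real.exp (-(3 / K)) ^ K := pow_le_pow_left₀ h0 h1 K
    have h3 : Real.exp (-(3 / (K : ℝ))) ^ K = Real.exp (-3) := by
      rw [← Real.exp_nat_mul]
      congr 1
      field_simp
    have h4 : Real.exp (-3) ≤ 1 / 16 := by
      rw [Real.exp_neg, ← one_div]
      refine one_div_le_one_div_of_le (by norm_num) ?_
      have h5 := Real.exp_one_gt_d9
      have h6 : Real.exp 3 = Real.exp 1 ^ 3 := by
        rw [← Real.exp_nat_mul]
        norm_num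
      rw [h6]
      have h7 : (2.7 : ℝ) ^ 3 ≤ Real.exp 1 ^ 3 := pow_le_pow_left₀ (by norm_num) (by linarith) 3
      norm_num at h7 ⊢
      linarith
    rw [h3] at h2
    exact h2.trans h4
  have hL0 : 0 ≤ 1 - 1 / (2 * (K : ℝ)) := by
    rw [hKR]
    norm_num
  have hκ0 : 0 ≤ 1 - 3 / (K : ℝ) := by
    rw [hKR]
    norm_num
  -- the size of n
  have s1 : (n : ℝ) ≤ 2 ^ Nat.size n := by exact_mod_cast (Nat.lt_size_self n).le
  have s2 : (2 : ℝ) ^ Nat.size n ≤ 2 * n := by
    have h1 : 0 < Nat.size n := Nat.size_pos.2 hn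
    have h2 : 2 ^ (Nat.size n - 1) ≤ n := Nat.lt_size.1 (by omega)
    have h3 : 2 ^ Nat.size n = 2 * 2 ^ (Nat.size n - 1) := by
      rw [← pow_succ']
      congr 1
      omega
    have : 2 ^ Nat.size n ≤ 2 * n := by omega
    exact_mod_cast this
  have hcR : (c : ℝ) = 40 * 2 ^ (q + 4) := by rw [hc]; push_cast; ring
  refine ⟨by rw [hKR]; norm_num, ?_, hL0, ?_, ?_⟩
  · have : 0 < 1 / (2 * (K : ℝ)) := by positivity
    linarith
  · rw [pow_mul]
    have h1 : ((1 : ℝ) / 2) ^ T ≤ ((1 - 1 / (2 * (K : ℝ))) ^ K) ^ T :=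
      pow_le_pow_left₀ (by norm_num) p1 T
    have h2 : (20 : ℝ) ≤ ((c * n : ℕ) : ℝ) * (1 / 2) ^ T := by
      rw [hT, pow_add, one_div, inv_pow, inv_pow]
      push_cast
      rw [hcR]
      have h3 : (40 : ℝ) * 2 ^ (q + 4) * n * ((2 ^ Nat.size n)⁻¹ * (2 ^ (q + 4))⁻¹) =
          40 * n * (2 ^ Nat.size n)⁻¹ := by
        field_simp
      rw [h3, ← div_eq_mul_inv, le_div_iff₀ (by positivity)]
      linarith
    have h3 : ((c * n : ℕ) : ℝ) * (1 / 2) ^ T ≤ ((c * n : ℕ) : ℝ) *
        ((1 - 1 / (2 * (K : ℝ))) ^ K) ^ T := mul_le_mul_of_nonneg_left h1 (by positivity)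
    linarith
  · -- the total error
    have h1 : (1 - 3 / (K : ℝ)) ^ (K * T) ≤ (1 / 16) ^ T := by
      rw [pow_mul]
      exact pow_le_pow_left₀ (by positivity) p2 T
    have h2 : ((c * n : ℕ) : ℝ) * (1 - 3 / (K : ℝ)) ^ (K * T) ≤
        40 * (1 / 8) ^ (Nat.size n) * (1 / 8) ^ (q + 4) := by
      calc ((c * n : ℕ) : ℝ) * (1 - 3 / (K : ℝ)) ^ (K * T)
          ≤ (40 * 2 ^ (q + 4) * 2 ^ Nat.size n) * (1 / 16) ^ T := by
            refine mul_le_mul ?_ h1 (by positivity) (by positivity)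
            push_cast
            rw [hcR]
            exact mul_le_mul_of_nonneg_left s1 (by positivity)
        _ = _ := by
            have e1 : (1 / 16 : ℝ) ^ T = (1 / 2) ^ T * (1 / 8) ^ T := by
              rw [← mul_pow]
              norm_num
            have e2 : ∀ m : ℕ, (2 : ℝ) ^ m * (1 / 2) ^ m = 1 := fun m => by
              rw [← mul_pow]; norm_num
            have e3 := e2 (q + 4)
            have e4 := e2 (Nat.size n)
            rw [e1, hT, pow_add (1 / 2 : ℝ), pow_add (1 / 8 : ℝ)]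
            calc (40 * 2 ^ (q + 4) * 2 ^ Nat.size n : ℝ) * ((1 / 2) ^ Nat.size n *
                (1 / 2) ^ (q + 4) * ((1 / 8) ^ Nat.size n * (1 / 8) ^ (q + 4))) =
                40 * (2 ^ (q + 4) * (1 / 2) ^ (q + 4)) * (2 ^ Nat.size n *
                  (1 / 2) ^ Nat.size n) * ((1 / 8) ^ Nat.size n * (1 / 8) ^ (q + 4)) := by ring
              _ = _ := by rw [e3, e4]; ring
    have h3 : ((n * q : ℕ) : ℝ) * (((c * n : ℕ) : ℝ) * (1 - 3 / (K : ℝ)) ^ (K * T)) ^ 2 ≤
        1 / 1000 := by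
      calc _ ≤ ((n * q : ℕ) : ℝ) * (40 * (1 / 8) ^ (Nat.size n) * (1 / 8) ^ (q + 4)) ^ 2 := by
            refine mul_le_mul_of_nonneg_left ?_ (by positivity)
            exact pow_le_pow_left₀ (by positivity) h2 2
        _ ≤ ((2 : ℝ) ^ Nat.size n * 2 ^ q) * (40 * (1 / 8) ^ (Nat.size n) *
            (1 / 8) ^ (q + 4)) ^ 2 := by
            refine mul_le_mul_of_nonneg_right ?_ (by positivity)
            push_cast
            refine mul_le_mul s1 ?_ (by positivity) (by positivity)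
            exact_mod_cast Nat.lt_two_pow_self.le
        _ = 1600 * ((1 / 32) ^ Nat.size n) * ((1 / 32) ^ q) * (1 / 64) ^ 4 := by
            have e5 : ∀ m : ℕ, (1 / 32 : ℝ) ^ m = 2 ^ m * ((1 / 8) ^ m) ^ 2 := fun m => by
              rw [← pow_mul, mul_comm m 2, pow_mul, ← mul_pow]
              norm_num
            rw [e5 (Nat.size n), e5 q, pow_add (1 / 8 : ℝ)]
            have e6 : (1 / 64 : ℝ) ^ 4 = ((1 / 8) ^ 4) ^ 2 := by norm_num
            rw [e6]
            ring
        _ ≤ 1600 * 1 * 1 * (1 / 64) ^ 4 := by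
            have g1 : ((1 : ℝ) / 32) ^ Nat.size n ≤ 1 := pow_le_one₀ (by norm_num) (by norm_num)
            have g2 : ((1 : ℝ) / 32) ^ q ≤ 1 := pow_le_one₀ (by norm_num) (by norm_num)
            gcongr
        _ ≤ _ := by norm_num
    unfold Tw
    generalize ((n * q : ℕ) : ℝ) * (((c * n : ℕ) : ℝ) * (1 - 3 / (K : ℝ)) ^ (K * T)) ^ 2 = B at h3
    have h4 : (2 * (q : ℝ) + B) / ((1000 * q : ℕ) : ℝ) ≤ 1 / 400 := by
      rw [div_le_iff₀ (by positivity)]
      push_cast
      linarith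
    have h5 : 4 * ε / (1 - (1 - 1 / (2 * (K : ℝ)))) ≤ 1 / 1000 := by
      have : 4 * ε / (1 - (1 - 1 / (2 * (K : ℝ)))) = 8 * K * ε := by
        field_simp
        ring
      rw [this]
      linarith
    push_cast at h4 h5 ⊢
    linarith

end Params

section Final

variable {n d q : ℕ} {σ : ℝ} {l : List Edge}

theorem startG_lt (h : Xq n d q σ l) (hq : 0 < q) (K c : ℕ) (rs : List ℕ) (T : ℕ) :
    ∀ u < n, toF (startG K c n q l rs T) u < q := by
  intro u hu
  have hd : 0 < dg l := by rw [dg_eq h]; exact h.dpos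
  have hD : 0 < dg l ^ (2 * (K * T)) := by positivity
  have := (pickR_ok (ext_lt h) hq hD (K * T) (c * n) rs hu).1
  unfold startG startR toF
  rw [getD_range_map, if_pos hu]
  exact this

/-- **The algorithm is almost optimal on good expanders.** -/
theorem algR_le (h : Xq n d q σ l) (hq : 1 ≤ q) (hσ : σ ≤ 1 / 64) {K c : ℕ}
    (hK : K = 16384) (hc : c = 40 * 2 ^ (q + 4)) {x y : ℕ → ℕ}
    (hx : ∀ u < n, x u < q) (hy : ∀ u < n, y u < q)
    (hV : 10000 * K * V l x y ≤ d * n) :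
    (∀ u < n, toF (algR K c (q + 4) (1000 * q) n q l).1 u < q) ∧
    (∀ u < n, toF (algR K c (q + 4) (1000 * q) n q l).2 u < q) ∧
    V l (toF (algR K c (q + 4) (1000 * q) n q l).1) (toF (algR K c (q + 4) (1000 * q) n q l).2) ≤
      (1 + 96 * (V l x y / (d * n)) + 12 * σ) * V l x y := by
  have hn : (0 : ℝ) < n := by exact_mod_cast h.npos
  have hd : (0 : ℝ) < d := by exact_mod_cast h.dpos
  have hdn : (0 : ℝ) < d * n := by positivity
  have hVn := V_nonneg l x y
  set ε : ℝ := V l x y / (d * n) with hε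
  have hε0 : 0 ≤ ε := by positivity
  have hVε : V l x y ≤ ε * (d * n) := by
    rw [hε, div_mul_cancel₀ _ hdn.ne']
  have hεK : 10000 * K * ε ≤ 1 := by
    rw [hε, mul_div_assoc', div_le_one hdn]
    exact hV
  obtain ⟨r1, r4, r5, r6, r7⟩ := params' hq h.npos hK hc rfl hεK
  have hε1 : ε ≤ 1 / 10000 := by
    rw [hK] at hεK
    push_cast at hεK
    linarith
  have hs : 0 < 1000 * q := by omega
  obtain ⟨rs, hrs1, hrs2, hround⟩ := round_ok' h hσ hx hy (by linarith) hVε r1 r4 r5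
    r6 (by norm_num) hs
  have hd' : dg l = d := dg_eq h
  have hdp : 0 < dg l := by rw [hd']; exact h.dpos
  set T := Nat.size n + (q + 4) with hT
  have hD : 0 < dg l ^ (2 * (K * T)) := by positivity
  -- the start
  have hstart : ∑ u ∈ range n, df (toF (startG K c n q l rs T)) x u ≤ 1 / 16 * n := by
    refine (hround (toF (startG K c n q l rs T)) fun u hu => ?_).trans
      (mul_le_mul_of_nonneg_right r7 hn.le)
    have h1 := pickR_ok (ext_lt h) hq hD (K * T) (c * n) rs hu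
    have h2 : toF (startG K c n q l rs T) u = pickR q ((dg l ^ (2 * (K * T))) ^ (c * n)) rs
        (runR (n * q) (ext q l) (dg l ^ (2 * (K * T))) (K * T) (c * n) rs) u := by
      unfold startG startR toF
      rw [getD_range_map, if_pos hu]
    rw [← h2] at h1
    have h3 : (((dg l ^ (2 * (K * T)) : ℕ)) : ℝ) = (d : ℝ) ^ (2 * (K * T)) := by
      rw [hd']
      push_cast
      rfl
    rw [h3] at h1
    exact h1
  have hcand := cand_ok h hq hx hy (by linarith) (t := 1 / 16) le_rfl (by nlinarith)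
    (startG_lt h hq K c rs T) hstart
  -- membership
  have hTn : T < n + (q + 4) + 1 := by
    have : n.size ≤ n := Nat.size_le.2 Nat.lt_two_pow_self
    omega
  have hmem : cand n q l (startG K c n q l rs T) ∈
      ((tup (1000 * q) (List.range (n * q))).flatMap fun rs =>
        (List.range (n + (q + 4) + 1)).map fun T => cand n q l (startG K c n q l rs T)) := by
    rw [List.mem_flatMap]
    refine ⟨rs, ?_, ?_⟩
    · rw [← hrs1]
      exact mem_tup rs fun r hr => List.mem_range.2 (hrs2 r hr)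
    · rw [List.mem_map]
      exact ⟨T, List.mem_range.2 hTn, rfl⟩
  obtain ⟨hb1, hb2⟩ := best_le l hmem
  rw [List.mem_flatMap] at hb1
  obtain ⟨r', _, hb1⟩ := hb1
  rw [List.mem_map] at hb1
  obtain ⟨T', _, hb1⟩ := hb1
  have hlt : (∀ u < n, toF (algR K c (q + 4) (1000 * q) n q l).1 u < q) ∧
      ∀ u < n, toF (algR K c (q + 4) (1000 * q) n q l).2 u < q := by
    unfold algR
    rw [← hb1]
    unfold cand
    rw [Function.iterate_succ_apply']
    generalize (rdL n q l)^[l.length] (startG K c n q l r' T', brR n q l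
      (startG K c n q l r' T')) = s
    have h1 := brL_best h hq s.2
    have h2 := brR_best h hq (f := brL n q l s.2) fun u hu => (h1 u hu).1
    exact ⟨fun u hu => (h1 u hu).1, fun u hu => (h2 u hu).1⟩
  refine ⟨hlt.1, hlt.2, ?_⟩
  rw [← nvL_eq h hlt.1]
  refine le_trans ?_ hcand
  exact_mod_cast hb2

end Final

end Pool.Agent.K6.H49.UGR
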