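import Pool.Agent.K6.H49.UGR.Root

/-!
# The number of large eigenvalues of the label-extended graph of an expander
-/

set_option autoImplicit false

open Finset

namespace Pool.Agent.K6.H49.UGR

open Pool.Agent.K6.H49.UGX (Edge)
open Pool.Agent.K6.H49.UGQ

section

variable {n d q : ℕ} {σ : ℝ} {l : List Edge}

/-- Mixing. -/
theorem mix (h : Xq n d q σ l) (f g : ℕ → ℝ) :
    S (fun e => f e.1 * g e.2.1) l ≤ d / n * ((∑ u ∈ range n, f u) * ∑ u ∈ range n, g u) +
      σ * d * (((∑ u ∈ range n, f u ^ 2) + ∑ u ∈ range n, g u ^ 2) / 2) := by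
  have hn : (0 : ℝ) < n := by exact_mod_cast h.npos
  have hσ := h.nonneg
  refine (h.bil_le f g).trans ?_
  have h1 : √((∑ u ∈ range n, f u ^ 2) - (∑ u ∈ range n, f u) ^ 2 / n) *
      √((∑ u ∈ range n, g u ^ 2) - (∑ u ∈ range n, g u) ^ 2 / n) ≤
      ((∑ u ∈ range n, f u ^ 2) + ∑ u ∈ range n, g u ^ 2) / 2 := by
    have key : ∀ φ : ℕ → ℝ, √((∑ u ∈ range n, φ u ^ 2) - (∑ u ∈ range n, φ u) ^ 2 / n) ^ 2 ≤
        ∑ u ∈ range n, φ u ^ 2 := by
      intro φ
      have h2 : 0 ≤ (∑ u ∈ range n, φ u ^ 2) - (∑ u ∈ range n, φ u) ^ 2 / n := by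
        have := sq_sum_le_card_mul_sum_sq (s := range n) (f := φ)
        rw [card_range] at this
        rw [sub_nonneg, div_le_iff₀ hn]
        linarith
      rw [Real.sq_sqrt h2]
      have : 0 ≤ (∑ u ∈ range n, φ u) ^ 2 / n := by positivity
      linarith
    have k1 := key f
    have k2 := key g
    nlinarith [sq_nonneg (√((∑ u ∈ range n, f u ^ 2) - (∑ u ∈ range n, f u) ^ 2 / n) -
      √((∑ u ∈ range n, g u ^ 2) - (∑ u ∈ range n, g u) ^ 2 / n))]
  have h2 : 0 ≤ σ * d := by positivity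
  have := mul_le_mul_of_nonneg_left h1 h2
  linarith

/-- The difference over the edges. -/
theorem diff_sq (h : Xq n d q σ l) (ψ η : ℕ → ℝ) :
    S (fun e => ∑ a ∈ range q, (ψ (e.1 * q + a) - η (e.2.1 * q + tb e a)) ^ 2) l =
      d * nrm n q ψ + d * nrm n q η - 2 * Bf q l ψ η := by
  have h1 := sum_node_left h fun r => ψ r ^ 2
  have h2 := sum_node_right h fun r => η r ^ 2
  unfold nrm Bf
  rw [← h1, ← h2, ← S_add, ← S_mul, ← S_sub]
  refine S_congr fun e _ => ?_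
  rw [mul_sum, ← sum_add_distrib, ← sum_sub_distrib]
  exact sum_congr rfl fun a _ => by ring

/-- The matrix of the values at a vertex. -/
def Wm {m : ℕ} (q : ℕ) (ψ : Fin m → ℕ → ℝ) (u : ℕ) (a : ℕ) (j : Fin m) : ℝ := ψ j (u * q + a)

theorem sum_fr {m : ℕ} (ψ : Fin m → ℕ → ℝ) :
    ∑ u ∈ range n, fr q (Wm q ψ u) = ∑ j, nrm n q (ψ j) := by
  unfold fr Wm nrm
  have : ∀ u ∈ range n, ∑ a ∈ range q, ∑ j, ψ j (u * q + a) ^ 2 =
      ∑ j, ∑ a ∈ range q, ψ j (u * q + a) ^ 2 := fun u _ => sum_comm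
  rw [sum_congr rfl this, sum_comm]

theorem Rt.perm {m : ℕ} {W : ℕ → Fin m → ℝ} {T : Fin m → Fin m → ℝ} (hT : Rt m q W T) {e : Edge}
    (he : Tab q e.2.2) : Rt m q (fun a => W (tb e a)) T where
  sym := hT.sym
  psd := hT.psd
  nrm := by
    intro x
    rw [hT.nrm x]
    exact (tb_sum he fun a => (∑ j, W a j * x j) ^ 2).symm

theorem fr_perm {m : ℕ} (W : ℕ → Fin m → ℝ) {e : Edge} (he : Tab q e.2.2) :
    fr q (fun a => W (tb e a)) = fr q W :=
  tb_sum he fun a => ∑ j, W a j ^ 2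

/-- **At most `16 q / 13` orthonormal vectors are almost not shortened.** -/
theorem dim_bound (h : Xq n d q σ l) (hσ : σ ≤ 1 / 64) {m : ℕ} (ψ η : Fin m → ℕ → ℝ)
    (o1 : ∀ j k, ∑ r ∈ range (n * q), ψ j r * ψ k r = if j = k then 1 else 0)
    (n2 : ∀ j, nrm n q (η j) ≤ 1) {κ : ℝ} (hκ : κ ≤ 1 / 4096)
    (hb : ∀ j, (1 - κ) * d ≤ Bf q l (ψ j) (η j)) : (m : ℝ) * (13 / 16) ≤ q := by
  classical
  have hn : (0 : ℝ) < n := by exact_mod_cast h.npos
  have hd : (0 : ℝ) < d := by exact_mod_cast h.dpos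
  have hσ0 := h.nonneg
  have n1 : ∀ j, nrm n q (ψ j) = 1 := by
    intro j
    have := o1 j j
    rw [if_pos rfl] at this
    rw [nrm_eq, ← this]
    exact sum_congr rfl fun r _ => sq _
  -- the roots
  choose Sm hSm w hwc hwn J hJ hker using fun u => root_exists (q := q) (Wm q ψ u)
  choose Tm hTm _ using fun v => root_exists (q := q) (Wm q η v)
  have frS : ∑ u ∈ range n, ∑ i, ∑ j, Sm u i j ^ 2 = m := by
    rw [sum_congr rfl fun u _ => (hSm u).frob, sum_fr, sum_congr rfl fun j _ => n1 j]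
    simp
  have frT : ∑ u ∈ range n, ∑ i, ∑ j, Tm u i j ^ 2 = ∑ j, nrm n q (η j) := by
    rw [sum_congr rfl fun u _ => (hTm u).frob, sum_fr]
  have hN1 : ∑ j, nrm n q (η j) ≤ m := by
    refine (sum_le_sum fun j _ => n2 j).trans ?_
    simp
  have hsq : ∀ j, S (fun e => ∑ a ∈ range q, (ψ j (e.1 * q + a) - η j (e.2.1 * q + tb e a)) ^ 2) l
      = d * 1 + d * nrm n q (η j) - 2 * Bf q l (ψ j) (η j) := fun j => by
    rw [diff_sq h, n1 j]
  have hN2 : ∀ j, 1 - 2 * κ ≤ nrm n q (η j) := by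
    intro j
    have h1 : 0 ≤ S (fun e => ∑ a ∈ range q,
        (ψ j (e.1 * q + a) - η j (e.2.1 * q + tb e a)) ^ 2) l :=
      S_nonneg fun e _ => sum_nonneg fun a _ => sq_nonneg _
    rw [hsq] at h1
    have h2 := hb j
    have h3 : d * (1 - 2 * κ) ≤ d * nrm n q (η j) := by linarith
    exact le_of_mul_le_mul_left h3 hd
  have hN3 : (1 - 2 * κ) * m ≤ ∑ j, nrm n q (η j) := by
    refine le_trans (le_of_eq ?_) (sum_le_sum fun j _ => hN2 j)
    rw [sum_const, card_univ, Fintype.card_fin, nsmul_eq_mul, mul_comm]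
  set N2 : ℝ := ∑ j, nrm n q (η j) with hN2def
  -- the differences of the roots over the edges
  have hD : S (fun e => ∑ i, ∑ j, (Sm e.1 i j - Tm e.2.1 i j) ^ 2) l ≤ 3 / 64 * (d * m) := by
    have h1 : S (fun e => ∑ i, ∑ j, (Sm e.1 i j - Tm e.2.1 i j) ^ 2) l ≤
        S (fun e => 1 / 64 * (fr q (Wm q ψ e.1) + fr q (Wm q η e.2.1)) +
          1 / (2 * (1 / 64)) * ∑ j, ∑ a ∈ range q,
            (ψ j (e.1 * q + a) - η j (e.2.1 * q + tb e a)) ^ 2) l := by
      refine S_le fun e he => ?_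
      have h2 := powers (hSm e.1) ((hTm e.2.1).perm (h.tab e he)) (θ := 1 / 64) (by norm_num)
      rw [fr_perm _ (h.tab e he)] at h2
      refine h2.trans (le_of_eq ?_)
      congr 2
      unfold fr Wm
      rw [sum_comm]
    have h3 : S (fun e => fr q (Wm q ψ e.1)) l = d * m := by
      rw [h.sum_left fun u => fr q (Wm q ψ u), sum_fr, sum_congr rfl fun j _ => n1 j]
      simp
    have h4 : S (fun e => fr q (Wm q η e.2.1)) l = d * N2 := by
      rw [h.sum_right fun u => fr q (Wm q η u), sum_fr]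
    have h5 : S (fun e => ∑ j, ∑ a ∈ range q,
        (ψ j (e.1 * q + a) - η j (e.2.1 * q + tb e a)) ^ 2) l ≤ 2 * κ * (d * m) := by
      rw [S_sum]
      refine (sum_le_sum (g := fun _ => 2 * κ * d) fun j _ => ?_).trans (le_of_eq ?_)
      · rw [hsq]
        have := hb j
        have h6 := mul_le_mul_of_nonneg_left (n2 j) hd.le
        linarith
      · rw [sum_const, card_univ, Fintype.card_fin, nsmul_eq_mul]
        ring
    rw [S_add, S_mul, S_mul, S_add, h3, h4] at h1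
    have hdm : 0 ≤ (d : ℝ) * m := by positivity
    have h6 : (d : ℝ) * N2 ≤ d * m := mul_le_mul_of_nonneg_left hN1 hd.le
    have h7 : 2 * κ * ((d : ℝ) * m) ≤ 2 * (1 / 4096) * (d * m) :=
      mul_le_mul_of_nonneg_right (by linarith) hdm
    linarith
  -- lower bound for the inner products
  have hST : d * m * (31 / 32) ≤ S (fun e => ∑ i, ∑ j, Sm e.1 i j * Tm e.2.1 i j) l := by
    have e1 : S (fun e => ∑ i, ∑ j, (Sm e.1 i j - Tm e.2.1 i j) ^ 2) l =
        S (fun e => ∑ i, ∑ j, Sm e.1 i j ^ 2) l + S (fun e => ∑ i, ∑ j, Tm e.2.1 i j ^ 2) l -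
          2 * S (fun e => ∑ i, ∑ j, Sm e.1 i j * Tm e.2.1 i j) l := by
      rw [← S_add, ← S_mul, ← S_sub]
      refine S_congr fun e _ => ?_
      rw [mul_sum, ← sum_add_distrib, ← sum_sub_distrib]
      refine sum_congr rfl fun i _ => ?_
      rw [mul_sum, ← sum_add_distrib, ← sum_sub_distrib]
      exact sum_congr rfl fun j _ => by ring
    have e2 : S (fun e => ∑ i, ∑ j, Sm e.1 i j ^ 2) l = d * m := by
      rw [h.sum_left fun u => ∑ i, ∑ j, Sm u i j ^ 2, frS]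
    have e3 : S (fun e => ∑ i, ∑ j, Tm e.2.1 i j ^ 2) l = d * N2 := by
      rw [h.sum_right fun u => ∑ i, ∑ j, Tm u i j ^ 2, frT]
    rw [e1, e2, e3] at hD
    have hdm : 0 ≤ (d : ℝ) * m := by positivity
    have h6 : (d : ℝ) * ((1 - 2 * κ) * m) ≤ d * N2 := mul_le_mul_of_nonneg_left hN3 hd.le
    have h7 : 2 * κ * ((d : ℝ) * m) ≤ 2 * (1 / 4096) * (d * m) :=
      mul_le_mul_of_nonneg_right (by linarith) hdm
    nlinarith
  -- the sums
  set Sg : Fin m → Fin m → ℝ := fun i j => ∑ u ∈ range n, Sm u i j with hSg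
  set Tg : Fin m → Fin m → ℝ := fun i j => ∑ u ∈ range n, Tm u i j with hTg
  have hup : S (fun e => ∑ i, ∑ j, Sm e.1 i j * Tm e.2.1 i j) l ≤
      d / n * ∑ i, ∑ j, Sg i j * Tg i j + σ * d * m := by
    rw [S_sum]
    have h1 : ∑ i, S (fun e => ∑ j, Sm e.1 i j * Tm e.2.1 i j) l ≤
        ∑ i, ∑ j, (d / n * (Sg i j * Tg i j) +
          σ * d * (((∑ u ∈ range n, Sm u i j ^ 2) + ∑ u ∈ range n, Tm u i j ^ 2) / 2)) := by
      refine sum_le_sum fun i _ => ?_
      rw [S_sum]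
      exact sum_le_sum fun j _ => mix h (fun u => Sm u i j) fun v => Tm v i j
    refine h1.trans ?_
    have e1 : ∀ F : ℕ → Fin m → Fin m → ℝ, ∑ i, ∑ j, ∑ u ∈ range n, F u i j =
        ∑ u ∈ range n, ∑ i, ∑ j, F u i j := by
      intro F
      rw [sum_comm (s := range n)]
      exact sum_congr rfl fun i _ => sum_comm
    have e2 : ∑ i, ∑ j, (d / n * (Sg i j * Tg i j) +
          σ * d * (((∑ u ∈ range n, Sm u i j ^ 2) + ∑ u ∈ range n, Tm u i j ^ 2) / 2)) =
        d / n * ∑ i, ∑ j, Sg i j * Tg i j + σ * d * (((∑ i, ∑ j, ∑ u ∈ range n, Sm u i j ^ 2) +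
          ∑ i, ∑ j, ∑ u ∈ range n, Tm u i j ^ 2) / 2) := by
      rw [mul_sum, ← sum_add_distrib, sum_div, mul_sum, ← sum_add_distrib]
      refine sum_congr rfl fun i _ => ?_
      rw [mul_sum, ← sum_add_distrib, sum_div, mul_sum, ← sum_add_distrib]
    rw [e2, e1, e1, frS, frT]
    have h2 : σ * d * ((m + N2) / 2) ≤ σ * d * m :=
      mul_le_mul_of_nonneg_left (by linarith) (by positivity)
    linarith
  have hTT : ∑ i, ∑ j, Tg i j ^ 2 ≤ n * m := by
    have h1 : ∀ i j, Tg i j ^ 2 ≤ n * ∑ u ∈ range n, Tm u i j ^ 2 := by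
      intro i j
      have := sq_sum_le_card_mul_sum_sq (s := range n) (f := fun u => Tm u i j)
      rwa [card_range] at this
    refine (sum_le_sum fun i _ => sum_le_sum fun j _ => h1 i j).trans ?_
    simp only [← mul_sum]
    refine mul_le_mul_of_nonneg_left ?_ hn.le
    refine le_trans (le_of_eq ?_) hN1
    rw [← frT, sum_comm (s := range n)]
    exact sum_congr rfl fun i _ => sum_comm
  have hcs : ∑ i, ∑ j, Sg i j * Tg i j ≤ (∑ i, ∑ j, Sg i j ^ 2 + n * m) / 2 := by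
    have h1 : ∑ i, ∑ j, Sg i j * Tg i j ≤ ∑ i, ∑ j, (Sg i j ^ 2 + Tg i j ^ 2) / 2 :=
      sum_le_sum fun i _ => sum_le_sum fun j _ => by nlinarith [sq_nonneg (Sg i j - Tg i j)]
    have h2 : ∑ i, ∑ j, (Sg i j ^ 2 + Tg i j ^ 2) / 2 =
        (∑ i, ∑ j, Sg i j ^ 2 + ∑ i, ∑ j, Tg i j ^ 2) / 2 := by
      simp only [← sum_div, sum_add_distrib]
    rw [h2] at h1
    linarith
  have hS2 : n * m * (29 / 32) ≤ ∑ i, ∑ j, Sg i j ^ 2 := by
    have h1 := hST.trans hup
    have h2 : (d : ℝ) / n * ∑ i, ∑ j, Sg i j * Tg i j ≤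
        d / n * ((∑ i, ∑ j, Sg i j ^ 2 + n * m) / 2) :=
      mul_le_mul_of_nonneg_left hcs (by positivity)
    have h3 : (d : ℝ) / n * ((∑ i, ∑ j, Sg i j ^ 2 + n * m) / 2) =
        d / n * (∑ i, ∑ j, Sg i j ^ 2) / 2 + d * m / 2 := by
      field_simp
    have h4 : σ * d * m ≤ 1 / 64 * (d * m) := by
      have : 0 ≤ (d : ℝ) * m := by positivity
      have := mul_le_mul_of_nonneg_right hσ this
      linarith
    have h5 : (d : ℝ) * m * (29 / 32) ≤ d / n * (∑ i, ∑ j, Sg i j ^ 2) := by linarith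
    have h6 : (d : ℝ) / n * (n * m * (29 / 32)) ≤ d / n * (∑ i, ∑ j, Sg i j ^ 2) := by
      refine le_trans (le_of_eq ?_) h5
      field_simp
    exact le_of_mul_le_mul_left h6 (by positivity)
  -- a typical vertex
  obtain ⟨u0, hu0, hu1⟩ : ∃ u ∈ range n,
      ∑ i, ∑ j, (Sg i j - n * Sm u i j) ^ 2 ≤ 3 / 32 * (n * m) := by
    by_contra hc
    push Not at hc
    have h1 : ∑ u ∈ range n, 3 / 32 * ((n : ℝ) * m) <
        ∑ u ∈ range n, ∑ i, ∑ j, (Sg i j - n * Sm u i j) ^ 2 :=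
      sum_lt_sum_of_nonempty ⟨0, mem_range.2 h.npos⟩ hc
    rw [sum_const, card_range, nsmul_eq_mul] at h1
    have h2 : ∑ u ∈ range n, ∑ i, ∑ j, (Sg i j - n * Sm u i j) ^ 2 =
        n ^ 2 * m - n * ∑ i, ∑ j, Sg i j ^ 2 := by
      have e1 : ∑ u ∈ range n, ∑ i, ∑ j, (Sg i j - n * Sm u i j) ^ 2 =
          ∑ i, ∑ j, ∑ u ∈ range n, (Sg i j - n * Sm u i j) ^ 2 := by
        rw [sum_comm]
        exact sum_congr rfl fun i _ => sum_comm
      have e2 : ∀ i j, ∑ u ∈ range n, (Sg i j - n * Sm u i j) ^ 2 =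
          n ^ 2 * (∑ u ∈ range n, Sm u i j ^ 2) - n * Sg i j ^ 2 := by
        intro i j
        have e3 : ∀ u, (Sg i j - n * Sm u i j) ^ 2 =
            Sg i j ^ 2 - (2 * n * Sg i j) * Sm u i j + n ^ 2 * Sm u i j ^ 2 := fun u => by ring
        simp only [e3]
        rw [sum_add_distrib, sum_sub_distrib, sum_const, card_range, nsmul_eq_mul, ← mul_sum,
          ← mul_sum]
        have e4 : ∑ u ∈ range n, Sm u i j = Sg i j := rfl
        rw [e4]
        ring
      rw [e1]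
      simp only [e2]
      have e5 : ∑ i, ∑ j, (n ^ 2 * (∑ u ∈ range n, Sm u i j ^ 2) - n * Sg i j ^ 2) =
          n ^ 2 * (∑ i, ∑ j, ∑ u ∈ range n, Sm u i j ^ 2) - n * ∑ i, ∑ j, Sg i j ^ 2 := by
        simp only [sum_sub_distrib, mul_sum]
      rw [e5]
      have e6 : ∑ i, ∑ j, ∑ u ∈ range n, Sm u i j ^ 2 = m := by
        rw [← frS, sum_comm (s := range n)]
        exact sum_congr rfl fun i _ => sum_comm
      rw [e6]
    rw [h2] at h1
    have h3 := mul_le_mul_of_nonneg_left hS2 hn.le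
    nlinarith
  -- the norm of the sum
  have hop : ∀ k, ∑ i, (∑ j, Sg i j * w u0 k j) ^ 2 ≤ n := by
    intro k
    set x := w u0 k with hx
    have h1 : ∀ i, ∑ j, Sg i j * x j = ∑ u ∈ range n, ∑ j, Sm u i j * x j := by
      intro i
      simp only [hSg, sum_mul]
      rw [sum_comm]
    have h2 : ∀ i, (∑ j, Sg i j * x j) ^ 2 ≤ n * ∑ u ∈ range n, (∑ j, Sm u i j * x j) ^ 2 := by
      intro i
      rw [h1]
      have := sq_sum_le_card_mul_sum_sq (s := range n) (f := fun u => ∑ j, Sm u i j * x j)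
      rwa [card_range] at this
    refine (sum_le_sum fun i _ => h2 i).trans ?_
    rw [← mul_sum, sum_comm, sum_congr rfl fun u _ => (hSm u).nrm x]
    have h3 : ∑ u ∈ range n, ∑ a ∈ range q, (∑ j, Wm q ψ u a j * x j) ^ 2 =
        ∑ r ∈ range (n * q), (∑ j, ψ j r * x j) ^ 2 := by
      rw [sum_node]
      rfl
    rw [h3]
    have h4 : ∀ r, (∑ j, ψ j r * x j) ^ 2 = ∑ j, ∑ k', (x j * x k') * (ψ j r * ψ k' r) := by
      intro r
      rw [sq, sum_mul_sum]
      exact sum_congr rfl fun j _ => sum_congr rfl fun k' _ => by ring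
    simp only [h4]
    rw [sum_comm]
    have h5 : ∀ j, ∑ r ∈ range (n * q), ∑ k', (x j * x k') * (ψ j r * ψ k' r) = x j ^ 2 := by
      intro j
      rw [sum_comm]
      simp only [← mul_sum, o1]
      rw [sum_eq_single j]
      · rw [if_pos rfl]; ring
      · intro k' _ hk'
        rw [if_neg (Ne.symm hk'), mul_zero]
      · intro hh
        exact absurd (mem_univ j) hh
    simp only [h5]
    rw [hwn u0 k, mul_one]
  -- conclusion
  have hfin : ∑ i, ∑ j, Sg i j ^ 2 ≤ q * n + 3 / 32 * (n * m) := by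
    rw [← fr_basis' (hwc u0)]
    have h1 : ∀ k, ∑ i, (∑ j, Sg i j * w u0 k j) ^ 2 ≤ (if k ∈ J u0 then (n : ℝ) else 0) +
        ∑ i, (∑ j, (Sg i j - n * Sm u0 i j) * w u0 k j) ^ 2 := by
      intro k
      split_ifs with hk
      · have := hop k
        have h2 : 0 ≤ ∑ i, (∑ j, (Sg i j - n * Sm u0 i j) * w u0 k j) ^ 2 :=
          sum_nonneg fun i _ => sq_nonneg _
        linarith
      · rw [zero_add]
        refine le_of_eq (sum_congr rfl fun i _ => ?_)
        congr 1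
        have h3 := hker u0 k hk i
        have h4 : ∑ j, (Sg i j - n * Sm u0 i j) * w u0 k j =
            (∑ j, Sg i j * w u0 k j) - n * ∑ j, Sm u0 i j * w u0 k j := by
          rw [mul_sum, ← sum_sub_distrib]
          exact sum_congr rfl fun j _ => by ring
        rw [h4, h3]
        ring
    refine (sum_le_sum fun k _ => h1 k).trans ?_
    rw [sum_add_distrib, fr_basis' (hwc u0), sum_ite_mem, univ_inter, sum_const, nsmul_eq_mul]
    have h2 : ((J u0).card : ℝ) * n ≤ q * n := by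
      have : ((J u0).card : ℝ) ≤ q := by exact_mod_cast hJ u0
      exact mul_le_mul_of_nonneg_right this hn.le
    linarith
  have h1 : (n : ℝ) * (m * (13 / 16)) ≤ n * q := by linarith
  exact le_of_mul_le_mul_left h1 hn

end

end Pool.Agent.K6.H49.UGR
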