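import Pool.Agent.K6.H49.UGR.AlgP
import Pool.Agent.K6.H49.UGQ.AlgF

/-!
# The algorithm for unique games, with a bound on the violated constraints independent of `q`
-/

set_option autoImplicit false

open Finset

namespace Pool.Agent.K6.H49.UGR

open Pool.Agent.NPC
open Pool.Agent.K6.H49.UGX (Edge Game IsUnique Regular SecondLE numSat viol)
open Pool.Agent.K6.H49.UGQ

/-- **Main theorem about the algorithm.** -/
theorem alg_main' {G : Game} {d q : ℕ} [NeZero q] {σ : ℝ} (hG : IsUnique q G) (hR : Regular G d)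
    (hσ : 0 ≤ σ) (hσ1 : σ ≤ 1 / 64) (hS : SecondLE G (σ * d)) {K c : ℕ}
    (hK : K = 16384) (hc : c = 40 * 2 ^ (q + 4)) (f g : ℕ → Fin q)
    (hv : 10000 * K * viol G f g ≤ 1) :
    viol G (labq q (algo K c (q + 4) (1000 * q) q G).1)
      (labq q (algo K c (q + 4) (1000 * q) q G).2) ≤
      (1 + 96 * viol G f g + 12 * σ) * viol G f g := by
  have hq : 1 ≤ q := Nat.one_le_iff_ne_zero.2 (NeZero.ne q)
  have hX := xq_game hG hR hσ hS
  have hlen := length_G hX
  have hn : (0 : ℝ) < G.1 := by exact_mod_cast hX.npos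
  have hd : (0 : ℝ) < d := by exact_mod_cast hX.dpos
  have hdn : (0 : ℝ) < d * G.1 := by positivity
  have hV : ∀ p r : ℕ → Fin q, viol G p r = V G.2 (nf p) (nf r) / (d * G.1) := by
    intro p r
    unfold viol
    rw [← numSat_V G p r, ← hlen, ← numSat_V G p r]
    congr 1
    ring
  have hnn : nn G = G.1 := by
    unfold nn
    refine Nat.min_eq_left ?_
    have h2 : (G.1 : ℝ) ≤ G.2.length := by
      rw [hlen]
      have : (1 : ℝ) ≤ d := by exact_mod_cast hX.dpos
      nlinarith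
    exact_mod_cast h2
  have hw : 10000 * K * V G.2 (nf f) (nf g) ≤ d * G.1 := by
    rw [hV, mul_div_assoc', div_le_one hdn] at hv
    exact hv
  obtain ⟨h1, h2, h3⟩ := algR_le hX hq hσ1 hK hc (x := nf f) (y := nf g)
    (fun u _ => (f u).isLt) (fun u _ => (g u).isLt) hw
  rw [hV, hV f g]
  unfold algo
  rw [hnn, V_congr hX (fun u hu => nf_labq (h1 u hu)) (fun u hu => nf_labq (h2 u hu)),
    div_le_iff₀ hdn]
  refine h3.trans (le_of_eq ?_)
  field_simp

/-- **The algorithm.** -/
theorem algorithm : ∃ C : ℝ, 0 < C ∧ ∀ (q : ℕ) [NeZero q],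
    ∃ A : List Bool → List Bool, PolyTime A ∧
    ∀ (G : Game) (d : ℕ) (σ : ℝ), IsUnique q G → Regular G d → 0 ≤ σ → C * σ ≤ 1 →
      SecondLE G (σ * d) → ∃ w w' : List ℕ, A (bits G) = bits (w, w') ∧
        ∀ f g : ℕ → Fin q, C * viol G f g ≤ 1 →
          viol G (labq q w) (labq q w') ≤ (1 + C * (σ + viol G f g)) * viol G f g := by
  refine ⟨1000000000, by norm_num, fun q _ => ?_⟩
  have hq : 1 ≤ q := Nat.one_le_iff_ne_zero.2 (NeZero.ne q)
  set K : ℕ := 16384 with hK
  set c : ℕ := 40 * 2 ^ (q + 4) with hc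
  obtain ⟨A, hA, hA2⟩ : ∃ A : List Bool → List Bool, PolyTime A ∧
      ∀ G : Game, A (bits G) = bits (algo K c (q + 4) (1000 * q) q G) := by
    refine ⟨_, polyTime_opt (g := fun x => (unbits Game x).map
      (algo K c (q + 4) (1000 * q) q)) ?_, fun G => ?_⟩
    · exact Poly.optMap_fp (h := fun _ G => algo K c (q + 4) (1000 * q) q G) poly_unbits
        ((poly_algo K c (q + 4) (1000 * q) hq).comp (Poly.snd Poly.id))
    · simp only [unbits_bits, Option.map_some]
  refine ⟨A, hA, fun G d σ hG hR hσ hσ1 hS => ?_⟩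
  refine ⟨(algo K c (q + 4) (1000 * q) q G).1, (algo K c (q + 4) (1000 * q) q G).2, hA2 G,
    fun f g hv => ?_⟩
  have hv0 := viol_nonneg G f g
  have hv1 : 10000 * K * viol G f g ≤ 1 := by
    refine le_trans ?_ hv
    refine mul_le_mul_of_nonneg_right ?_ hv0
    rw [hK]
    norm_num
  have h := alg_main' hG hR hσ (by linarith) hS hK hc f g hv1
  refine h.trans (mul_le_mul_of_nonneg_right ?_ hv0)
  linarith

end Pool.Agent.K6.H49.UGR
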