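import Pool.Agent.K6.H49.UGQ.Ana2

/-!
# Square roots of Gram matrices and the inequality of Powers and Størmer
-/

set_option autoImplicit false

open Finset

namespace Pool.Agent.K6.H49.UGR

/-- The spectral theorem for a symmetric matrix, in coordinates. -/
theorem sym_basis {m : ℕ} (B : Fin m → Fin m → ℝ) (hB : ∀ i j, B i j = B j i) :
    ∃ (w : Fin m → Fin m → ℝ) (ev : Fin m → ℝ),
      (∀ k k', ∑ i, w k i * w k' i = if k = k' then 1 else 0) ∧
      (∀ i j, ∑ k, w k i * w k j = if i = j then 1 else 0) ∧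
      ∀ k i, ∑ j, B i j * w k j = ev k * w k i := by
  classical
  let M : Matrix (Fin m) (Fin m) ℝ := B
  have hM : M.IsHermitian := by
    ext i j
    simp only [Matrix.conjTranspose_apply, star_trivial]
    exact hB j i
  refine ⟨fun k i => hM.eigenvectorBasis k i, hM.eigenvalues, ?_, ?_, ?_⟩
  · intro k k'
    have h1 := hM.eigenvectorBasis.orthonormal
    rw [orthonormal_iff_ite] at h1
    have h2 := h1 k k'
    rw [← h2, PiLp.inner_apply]
    refine sum_congr rfl fun r _ => ?_
    simp [mul_comm]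
  · intro i j
    have h1 := hM.eigenvectorBasis.sum_inner_mul_inner (EuclideanSpace.single i 1)
      (EuclideanSpace.single j 1)
    simp only [EuclideanSpace.inner_single_left, EuclideanSpace.inner_single_right, map_one,
      one_mul, conj_trivial] at h1
    have h2 : (EuclideanSpace.single i (1 : ℝ)) j = if i = j then 1 else 0 := by
      simp [eq_comm]
    rw [h2] at h1
    rw [← h1]
  · intro k i
    exact congrFun (hM.mulVec_eigenvectorBasis k) i

/-- The square of the Frobenius norm of a matrix with `q` rows. -/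
def fr {m : ℕ} (q : ℕ) (W : ℕ → Fin m → ℝ) : ℝ := ∑ a ∈ range q, ∑ j, W a j ^ 2

/-- `S` is the positive square root of the Gram matrix of `W`. -/
structure Rt (m q : ℕ) (W : ℕ → Fin m → ℝ) (S : Fin m → Fin m → ℝ) : Prop where
  sym : ∀ i j, S i j = S j i
  psd : ∀ x : Fin m → ℝ, 0 ≤ ∑ i, x i * ∑ j, S i j * x j
  nrm : ∀ x : Fin m → ℝ, ∑ i, (∑ j, S i j * x j) ^ 2 = ∑ a ∈ range q, (∑ j, W a j * x j) ^ 2

section

variable {m q : ℕ} {w : Fin m → Fin m → ℝ}

/-- Expansion in an orthonormal basis. -/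
theorem expand (hc : ∀ i j, ∑ k, w k i * w k j = if i = j then 1 else 0) (x : Fin m → ℝ)
    (i : Fin m) : x i = ∑ k, (∑ j, w k j * x j) * w k i := by
  simp only [sum_mul]
  rw [sum_comm]
  have : ∀ j, ∑ k, w k j * x j * w k i = if j = i then x j else 0 := by
    intro j
    have h : ∀ k, w k j * x j * w k i = x j * (w k j * w k i) := fun k => by ring
    simp only [h]
    rw [← mul_sum, hc]
    split_ifs <;> simp
  simp only [this]
  simp

theorem sq_expand (hc : ∀ i j, ∑ k, w k i * w k j = if i = j then 1 else 0) (x : Fin m → ℝ) :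
    ∑ i, x i ^ 2 = ∑ k, (∑ j, w k j * x j) ^ 2 := by
  have h1 : ∀ k, (∑ j, w k j * x j) ^ 2 = ∑ i, ∑ j, x i * x j * (w k i * w k j) := by
    intro k
    rw [sq, sum_mul_sum]
    exact sum_congr rfl fun i _ => sum_congr rfl fun j _ => by ring
  simp only [h1]
  rw [sum_comm]
  refine sum_congr rfl fun i _ => ?_
  rw [sum_comm]
  have : ∀ j, ∑ k, x i * x j * (w k i * w k j) = if i = j then x i * x j else 0 := by
    intro j
    rw [← mul_sum, hc]
    split_ifs <;> simp
  simp only [this]
  simp [sq]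

/-- The Frobenius norm in an orthonormal basis. -/
theorem fr_basis (hc : ∀ i j, ∑ k, w k i * w k j = if i = j then 1 else 0)
    (W : ℕ → Fin m → ℝ) (s : Finset ℕ) :
    ∑ k, ∑ a ∈ s, (∑ j, W a j * w k j) ^ 2 = ∑ a ∈ s, ∑ j, W a j ^ 2 := by
  rw [sum_comm]
  refine sum_congr rfl fun a _ => ?_
  rw [sq_expand hc (W a)]
  exact sum_congr rfl fun k _ => by
    congr 1
    exact sum_congr rfl fun j _ => mul_comm _ _

theorem fr_basis' (hc : ∀ i j, ∑ k, w k i * w k j = if i = j then 1 else 0)
    (W : Fin m → Fin m → ℝ) :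
    ∑ k, ∑ i, (∑ j, W i j * w k j) ^ 2 = ∑ i, ∑ j, W i j ^ 2 := by
  rw [sum_comm]
  refine sum_congr rfl fun a _ => ?_
  rw [sq_expand hc (W a)]
  exact sum_congr rfl fun k _ => by
    congr 1
    exact sum_congr rfl fun j _ => mul_comm _ _

/-- Orthogonal nonzero vectors in `q` dimensions. -/
theorem card_orth (f : Fin m → ℕ → ℝ) (ev : Fin m → ℝ)
    (h : ∀ k k', ∑ a ∈ range q, f k a * f k' a = if k = k' then ev k else 0) :
    (univ.filter fun k => ev k ≠ 0).card ≤ q := by
  classical
  have hli : LinearIndependent ℝ (fun k : {k // k ∈ univ.filter fun k => ev k ≠ 0} =>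
      (fun a : Fin q => f k.1 a)) := by
    rw [Fintype.linearIndependent_iff]
    intro g hg k
    have h1 : ∀ a : Fin q, ∑ k' : {k // k ∈ univ.filter fun k => ev k ≠ 0},
        g k' * f k'.1 a = 0 := by
      intro a
      have := congrFun hg a
      simpa [Finset.sum_apply] using this
    have h2 : ∑ a : Fin q, f k.1 a * ∑ k' : {k // k ∈ univ.filter fun k => ev k ≠ 0},
        g k' * f k'.1 a = 0 := by
      simp only [h1, mul_zero, sum_const_zero]
    simp only [mul_sum] at h2
    rw [sum_comm] at h2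
    have h3 : ∀ k' : {k // k ∈ univ.filter fun k => ev k ≠ 0},
        ∑ a : Fin q, f k.1 a * (g k' * f k'.1 a) = if k = k' then g k' * ev k.1 else 0 := by
      intro k'
      have h4 : ∀ a : Fin q, f k.1 a * (g k' * f k'.1 a) = g k' * (f k.1 a * f k'.1 a) :=
        fun a => by ring
      simp only [h4]
      rw [← mul_sum, Fin.sum_univ_eq_sum_range (fun a => f k.1 a * f k'.1 a) q, h]
      by_cases hk : k = k'
      · rw [if_pos hk, if_pos (congrArg Subtype.val hk)]
      · rw [if_neg hk, if_neg fun h' => hk (Subtype.ext h'), mul_zero]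
    simp only [h3] at h2
    rw [sum_ite_eq, if_pos (mem_univ k)] at h2
    rcases mul_eq_zero.1 h2 with h5 | h5
    · exact h5
    · exact absurd h5 (mem_filter.1 k.2).2
  have h1 := hli.fintype_card_le_finrank
  rw [Fintype.card_coe, Module.finrank_fintype_fun_eq_card, Fintype.card_fin] at h1
  exact h1

end

/-- The positive square root. -/
theorem root_exists {m q : ℕ} (W : ℕ → Fin m → ℝ) : ∃ S : Fin m → Fin m → ℝ, Rt m q W S ∧
    ∃ w : Fin m → Fin m → ℝ, (∀ i j, ∑ k, w k i * w k j = if i = j then 1 else 0) ∧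
      (∀ k, ∑ i, w k i ^ 2 = 1) ∧ ∃ J : Finset (Fin m), J.card ≤ q ∧
      ∀ k ∉ J, ∀ i, ∑ j, S i j * w k j = 0 := by
  classical
  obtain ⟨w, ev, ho, hc, he⟩ := sym_basis (fun i j => ∑ a ∈ range q, W a i * W a j)
    fun i j => sum_congr rfl fun a _ => mul_comm _ _
  have hWW : ∀ k k', ∑ a ∈ range q, (∑ j, W a j * w k j) * (∑ j, W a j * w k' j) =
      if k = k' then ev k else 0 := by
    intro k k'
    have h1 : ∑ a ∈ range q, (∑ j, W a j * w k j) * (∑ j, W a j * w k' j) =
        ∑ i, w k i * ∑ j, (∑ a ∈ range q, W a i * W a j) * w k' j := by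
      have g1 : ∀ a, (∑ j, W a j * w k j) * (∑ j, W a j * w k' j) =
          ∑ i, ∑ j, w k i * (W a i * W a j * w k' j) := by
        intro a
        rw [sum_mul_sum]
        exact sum_congr rfl fun i _ => sum_congr rfl fun j _ => by ring
      simp only [g1, mul_sum, sum_mul]
      rw [sum_comm]
      refine sum_congr rfl fun i _ => ?_
      rw [sum_comm]
    rw [h1]
    simp only [he]
    have h2 : ∀ i, w k i * (ev k' * w k' i) = ev k' * (w k i * w k' i) := fun i => by ring
    simp only [h2]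
    rw [← mul_sum, ho]
    split_ifs with h
    · rw [h, mul_one]
    · rw [mul_zero]
  have hev : ∀ k, 0 ≤ ev k := by
    intro k
    have h1 := hWW k k
    rw [if_pos rfl] at h1
    rw [← h1]
    exact sum_nonneg fun a _ => mul_self_nonneg _
  have hxx : ∀ x : Fin m → ℝ, ∑ a ∈ range q, (∑ j, W a j * x j) ^ 2 =
      ∑ k, ev k * (∑ j, w k j * x j) ^ 2 := by
    intro x
    have h1 : ∀ a, ∑ j, W a j * x j = ∑ k, (∑ j, w k j * x j) * (∑ j, W a j * w k j) := by
      intro a
      calc ∑ j, W a j * x j = ∑ j, W a j * ∑ k, (∑ i, w k i * x i) * w k j := by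
            refine sum_congr rfl fun j _ => ?_
            rw [← expand hc x j]
        _ = _ := by
            simp only [mul_sum]
            rw [sum_comm]
            exact sum_congr rfl fun k _ => sum_congr rfl fun j _ => by ring
    simp only [h1]
    have h2 : ∀ a, (∑ k, (∑ j, w k j * x j) * (∑ j, W a j * w k j)) ^ 2 =
        ∑ k, ∑ k', (∑ j, w k j * x j) * (∑ j, w k' j * x j) *
          ((∑ j, W a j * w k j) * (∑ j, W a j * w k' j)) := by
      intro a
      rw [sq, sum_mul_sum]
      exact sum_congr rfl fun k _ => sum_congr rfl fun k' _ => by ring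
    simp only [h2]
    rw [sum_comm]
    refine sum_congr rfl fun k _ => ?_
    rw [sum_comm]
    simp only [← mul_sum, hWW]
    rw [sum_eq_single k]
    · rw [if_pos rfl]; ring
    · intro k' _ hk'
      rw [if_neg (Ne.symm hk'), mul_zero]
    · intro h
      exact absurd (mem_univ k) h
  set S : Fin m → Fin m → ℝ := fun i j => ∑ k, √(ev k) * (w k i * w k j) with hS
  have hSx : ∀ (x : Fin m → ℝ) (i : Fin m), ∑ j, S i j * x j =
      ∑ k, (√(ev k) * ∑ j, w k j * x j) * w k i := by
    intro x i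
    simp only [hS, sum_mul, mul_sum]
    rw [sum_comm]
    exact sum_congr rfl fun k _ => sum_congr rfl fun j _ => by ring
  refine ⟨S, ⟨?_, ?_, ?_⟩, w, hc, ?_, univ.filter fun k => ev k ≠ 0, ?_, ?_⟩
  · intro i j
    exact sum_congr rfl fun k _ => by ring
  · intro x
    simp only [hSx, mul_sum]
    rw [sum_comm]
    refine sum_nonneg fun k _ => ?_
    have : ∑ i, x i * ((∑ j, √(ev k) * (w k j * x j)) * w k i) =
        √(ev k) * (∑ j, w k j * x j) ^ 2 := by
      rw [← mul_sum, sq]
      have : ∀ i, x i * (√(ev k) * (∑ j, w k j * x j) * w k i) =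
          √(ev k) * (∑ j, w k j * x j) * (w k i * x i) := fun i => by ring
      simp only [this]
      rw [← mul_sum]
      ring
    rw [this]
    positivity
  · intro x
    rw [hxx]
    have h1 := sq_expand hc fun i => ∑ j, S i j * x j
    rw [h1]
    refine sum_congr rfl fun k _ => ?_
    have h2 : ∑ i, w k i * ∑ j, S i j * x j = √(ev k) * ∑ j, w k j * x j := by
      simp only [hSx]
      simp only [mul_sum]
      rw [sum_comm]
      have h3 : ∀ k', ∑ i, w k i * ((∑ j, √(ev k') * (w k' j * x j)) * w k' i) =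
          if k = k' then √(ev k') * ∑ j, w k' j * x j else 0 := by
        intro k'
        rw [← mul_sum]
        have h4 : ∀ i, w k i * ((√(ev k') * ∑ j, w k' j * x j) * w k' i) =
            (√(ev k') * ∑ j, w k' j * x j) * (w k i * w k' i) := fun i => by ring
        simp only [h4]
        rw [← mul_sum, ho]
        split_ifs <;> simp
      simp only [h3]
      rw [sum_ite_eq, if_pos (mem_univ k), mul_sum]
    rw [h2, mul_pow, Real.sq_sqrt (hev k)]
  · intro k
    have := ho k k
    rw [if_pos rfl] at this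
    rw [← this]
    exact sum_congr rfl fun i _ => sq _
  · exact card_orth (fun k a => ∑ j, W a j * w k j) ev hWW
  · intro k hk i
    have hk0 : ev k = 0 := by
      by_contra h
      exact hk (mem_filter.2 ⟨mem_univ k, h⟩)
    rw [hSx]
    refine sum_eq_zero fun k' _ => ?_
    by_cases hkk : k' = k
    · rw [hkk, hk0, Real.sqrt_zero, zero_mul, zero_mul]
    · have h1 := ho k' k
      rw [if_neg hkk] at h1
      rw [h1, mul_zero, zero_mul]

section Root

variable {m q : ℕ} {W W' : ℕ → Fin m → ℝ} {S T : Fin m → Fin m → ℝ}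

theorem Rt.frob (h : Rt m q W S) : ∑ i, ∑ j, S i j ^ 2 = fr q W := by
  unfold fr
  rw [sum_comm, sum_comm (s := range q)]
  refine sum_congr rfl fun j _ => ?_
  have h1 := h.nrm (fun i => if i = j then 1 else 0)
  simpa using h1

/-- **The inequality of Powers and Størmer**, for Gram matrices. -/
theorem powers (hS : Rt m q W S) (hT : Rt m q W' T) {θ : ℝ} (hθ : 0 < θ) :
    ∑ i, ∑ j, (S i j - T i j) ^ 2 ≤ θ * (fr q W + fr q W') +
      1 / (2 * θ) * fr q (fun a j => W a j - W' a j) := by
  obtain ⟨w, ev, ho, hc, he⟩ := sym_basis (fun i j => S i j - T i j) fun i j => by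
    rw [hS.sym i j, hT.sym i j]
  rw [← fr_basis' hc]
  unfold fr
  rw [← fr_basis hc W, ← fr_basis hc W', ← fr_basis hc (fun a j => W a j - W' a j),
    ← sum_add_distrib, mul_sum, mul_sum, ← sum_add_distrib]
  refine sum_le_sum fun k _ => ?_
  set x := w k with hx
  have hxx : ∑ i, x i * x i = 1 := by
    have := ho k k
    rwa [if_pos rfl] at this
  -- the left side
  have hD : ∀ i, ∑ j, (S i j - T i j) * x j = ev k * x i := he k
  have h1 : ∑ i, (∑ j, (S i j - T i j) * x j) ^ 2 = ev k ^ 2 := by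
    simp only [hD]
    have : ∀ i, (ev k * x i) ^ 2 = ev k ^ 2 * (x i * x i) := fun i => by ring
    simp only [this]
    rw [← mul_sum, hxx, mul_one]
  rw [h1]
  set s : ℝ := ∑ i, x i * ∑ j, S i j * x j with hs
  set t : ℝ := ∑ i, x i * ∑ j, T i j * x j with ht
  have s0 : 0 ≤ s := hS.psd x
  have t0 : 0 ≤ t := hT.psd x
  have hsub : ∀ i, (∑ j, S i j * x j) - (∑ j, T i j * x j) = ev k * x i := by
    intro i
    rw [← hD i, ← sum_sub_distrib]
    exact sum_congr rfl fun j _ => by ring
  have hst : s - t = ev k := by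
    rw [hs, ht, ← sum_sub_distrib]
    have : ∀ i, x i * (∑ j, S i j * x j) - x i * (∑ j, T i j * x j) = ev k * (x i * x i) := by
      intro i
      rw [← mul_sub, hsub]
      ring
    simp only [this]
    rw [← mul_sum, hxx, mul_one]
  -- the difference of the squares
  have h2 : (∑ i, (∑ j, S i j * x j) ^ 2) - (∑ i, (∑ j, T i j * x j) ^ 2) = ev k * (s + t) := by
    rw [hs, ht, ← sum_add_distrib, ← sum_sub_distrib, mul_sum]
    refine sum_congr rfl fun i _ => ?_
    have h3 := hsub i
    generalize (∑ j, S i j * x j) = A at h3 ⊢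
    generalize (∑ j, T i j * x j) = B at h3 ⊢
    have : A ^ 2 - B ^ 2 = (A - B) * (A + B) := by ring
    rw [this, h3]
    ring
  rw [hS.nrm, hT.nrm] at h2
  -- Cauchy-Schwarz for the difference
  have h4 : |(∑ a ∈ range q, (∑ j, W a j * x j) ^ 2) - ∑ a ∈ range q, (∑ j, W' a j * x j) ^ 2| ≤
      θ * ((∑ a ∈ range q, (∑ j, W a j * x j) ^ 2) + ∑ a ∈ range q, (∑ j, W' a j * x j) ^ 2) +
      1 / (2 * θ) * ∑ a ∈ range q, (∑ j, (W a j - W' a j) * x j) ^ 2 := by
    rw [← sum_sub_distrib, ← sum_add_distrib, mul_sum, mul_sum, ← sum_add_distrib]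
    refine (abs_sum_le_sum_abs _ _).trans (sum_le_sum fun a _ => ?_)
    have h5 : ∑ j, (W a j - W' a j) * x j = (∑ j, W a j * x j) - ∑ j, W' a j * x j := by
      rw [← sum_sub_distrib]
      exact sum_congr rfl fun j _ => by ring
    rw [h5]
    generalize (∑ j, W a j * x j) = A
    generalize (∑ j, W' a j * x j) = B
    have h6 : 2 * θ * (1 / (2 * θ)) = 1 := by field_simp
    have h7 : 0 < 1 / (2 * θ) := by positivity
    have h8 : θ * (A ^ 2 + B ^ 2) + 1 / (2 * θ) * (A - B) ^ 2 - (A ^ 2 - B ^ 2) =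
        1 / (2 * θ) * ((A - B) - θ * (A + B)) ^ 2 + θ / 2 * (A - B) ^ 2 := by
      field_simp
      ring
    have h9 : θ * (A ^ 2 + B ^ 2) + 1 / (2 * θ) * (A - B) ^ 2 + (A ^ 2 - B ^ 2) =
        1 / (2 * θ) * ((A - B) + θ * (A + B)) ^ 2 + θ / 2 * (A - B) ^ 2 := by
      field_simp
      ring
    rw [abs_le]
    constructor
    · have : 0 ≤ 1 / (2 * θ) * ((A - B) + θ * (A + B)) ^ 2 + θ / 2 * (A - B) ^ 2 := by positivity
      linarith
    · have : 0 ≤ 1 / (2 * θ) * ((A - B) - θ * (A + B)) ^ 2 + θ / 2 * (A - B) ^ 2 := by positivity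
      linarith
  rw [h2, abs_mul, abs_of_nonneg (by linarith : 0 ≤ s + t)] at h4
  refine le_trans ?_ h4
  have h5 : |ev k| ≤ s + t := by
    rw [← hst, abs_le]
    constructor <;> linarith
  calc ev k ^ 2 = |ev k| * |ev k| := by rw [← sq, sq_abs]
    _ ≤ |ev k| * (s + t) := mul_le_mul_of_nonneg_left h5 (abs_nonneg _)

end Root

end Pool.Agent.K6.H49.UGR
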