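import Pool.Agent.K6.H49.UGR.Dim

/-!
# Some sum of a bounded number of filtered unit vectors rounds to a good labeling
-/

set_option autoImplicit false

open Finset

namespace Pool.Agent.K6.H49.UGR

open Pool.Agent.K6.H49.UGX (Edge)
open Pool.Agent.K6.H49.UGQ

/-- A short sum of vectors with sum zero. -/
theorem exists_tuple {N n : ℕ} (hn : 0 < n) (ξ : ℕ → Fin N → ℝ)
    (h0 : ∀ k, ∑ v ∈ range n, ξ v k = 0) {H : ℝ}
    (hH : ∑ v ∈ range n, ∑ k, ξ v k ^ 2 ≤ H) (s : ℕ) :
    ∃ vs : List ℕ, vs.length = s ∧ (∀ v ∈ vs, v < n) ∧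
      ∑ k, ((vs.map fun v => ξ v k).sum) ^ 2 ≤ s * H / n := by
  have hn' : (0 : ℝ) < n := by exact_mod_cast hn
  induction s with
  | zero => exact ⟨[], rfl, by simp, by simp⟩
  | succ s ih =>
    obtain ⟨vs, h1, h2, h3⟩ := ih
    obtain ⟨v, hv, hv2⟩ : ∃ v ∈ range n,
        ∑ k, (ξ v k + (vs.map fun v => ξ v k).sum) ^ 2 ≤ ((s + 1 : ℕ) : ℝ) * H / n := by
      by_contra hc
      push Not at hc
      have h4 : ∑ v ∈ range n, ((s + 1 : ℕ) : ℝ) * H / n <
          ∑ v ∈ range n, ∑ k, (ξ v k + (vs.map fun v => ξ v k).sum) ^ 2 :=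
        sum_lt_sum_of_nonempty ⟨0, mem_range.2 hn⟩ hc
      rw [sum_const, card_range, nsmul_eq_mul] at h4
      have h5 : (n : ℝ) * (((s + 1 : ℕ) : ℝ) * H / n) = ((s + 1 : ℕ) : ℝ) * H := by field_simp
      rw [h5] at h4
      have h6 : ∑ v ∈ range n, ∑ k, (ξ v k + (vs.map fun v => ξ v k).sum) ^ 2 =
          (∑ v ∈ range n, ∑ k, ξ v k ^ 2) + n * ∑ k, ((vs.map fun v => ξ v k).sum) ^ 2 := by
        rw [sum_comm, sum_comm (s := range n), mul_sum, ← sum_add_distrib]
        refine sum_congr rfl fun k _ => ?_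
        generalize (vs.map fun v => ξ v k).sum = A
        have h7 : ∀ v, (ξ v k + A) ^ 2 = ξ v k ^ 2 + 2 * A * ξ v k + A ^ 2 := fun v => by ring
        simp only [h7]
        rw [sum_add_distrib, sum_add_distrib, ← mul_sum, h0, sum_const, card_range,
          nsmul_eq_mul]
        ring
      rw [h6] at h4
      have h8 : (n : ℝ) * ∑ k, ((vs.map fun v => ξ v k).sum) ^ 2 ≤ s * H := by
        have := mul_le_mul_of_nonneg_left h3 hn'.le
        refine this.trans (le_of_eq ?_)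
        field_simp
      push_cast at h4
      linarith
    refine ⟨v :: vs, by simp [h1], ?_, ?_⟩
    · intro v' hv'
      rcases List.mem_cons.1 hv' with rfl | h
      · exact mem_range.1 hv
      · exact h2 v' h
    · refine le_trans (le_of_eq ?_) hv2
      exact sum_congr rfl fun k _ => by rw [List.map_cons, List.sum_cons]

/-- The number of the occurrences. -/
def cnt (rs : List ℕ) (s : ℕ) : ℕ := (rs.filter fun r => decide (r = s)).length

/-- The sum of unit vectors. -/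
def un' (rs : List ℕ) (s : ℕ) : ℝ := (cnt rs s : ℝ)

theorem un'_eq (rs : List ℕ) (s : ℕ) : un' rs s = (rs.map fun r => un r s).sum := by
  unfold un' cnt
  induction rs with
  | nil => simp
  | cons r rs ih =>
    rw [List.map_cons, List.sum_cons, ← ih, List.filter_cons]
    unfold un
    by_cases h : r = s
    · rw [if_pos (by simpa using h), if_pos h.symm, List.length_cons]
      push_cast
      ring
    · rw [if_neg (by simpa using h), if_neg fun h' => h h'.symm, zero_add]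

/-- The filtered sum of unit vectors. -/
noncomputable def zw (E : List (ℕ × ℕ)) (D : ℝ) (a b : ℕ) (rs : List ℕ) (s : ℕ) : ℝ :=
  un' rs s - (Fl E D a)^[b] (un' rs) s / D ^ b

section Exp

variable {N : ℕ} {E : List (ℕ × ℕ)} {ψ : Fin N → ℕ → ℝ} {μ : Fin N → ℝ}

theorem un'_exp (hb : Bs N E ψ μ) {rs : List ℕ} (hr : ∀ r ∈ rs, r < N) :
    ∀ s < N, un' rs s = ∑ k, (rs.map fun r => ψ k r).sum * ψ k s := by
  intro s hs
  rw [un'_eq]
  induction rs with
  | nil => simp
  | cons r rs ih =>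
    rw [List.map_cons, List.sum_cons, ih fun r' hr' => hr r' (List.mem_cons_of_mem _ hr'),
      un_exp hb (hr r List.mem_cons_self) s hs, ← sum_add_distrib]
    refine sum_congr rfl fun k _ => ?_
    rw [List.map_cons, List.sum_cons]
    ring

theorem zw_exp (hE : ∀ p ∈ E, p.1 < N ∧ p.2 < N) (hb : Bs N E ψ μ) {D : ℝ} (hD : 0 < D)
    (a b : ℕ) {rs : List ℕ} (hr : ∀ r ∈ rs, r < N) : ∀ s < N, zw E D a b rs s =
      ∑ k, ((1 - (1 - μ k ^ a / D) ^ b) * (rs.map fun r => ψ k r).sum) * ψ k s := by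
  intro s hs
  unfold zw
  rw [Fl_iter hE hb (un'_exp hb hr) D a b s hs, un'_exp hb hr s hs, sum_div, ← sum_sub_distrib]
  refine sum_congr rfl fun k _ => ?_
  have : (1 - μ k ^ a / D) ^ b = (D - μ k ^ a) ^ b / D ^ b := by
    rw [← div_pow]
    congr 1
    field_simp
  rw [this]
  ring

end Exp

section Main

variable {n d q : ℕ} {σ : ℝ} {l : List Edge}
variable {ψ : Fin (n * q) → ℕ → ℝ} {μ : Fin (n * q) → ℝ}

/-- **At most `2 q` eigenvalues are large.** -/
theorem card_large' (h : Xq n d q σ l) (hσ : σ ≤ 1 / 64) (hb : Bs (n * q) (ext q l) ψ μ) {κ : ℝ}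
    (hκ : κ ≤ 1 / 4096) :
    ((univ.filter fun k => (1 - κ) * d ^ 2 ≤ μ k).card : ℝ) ≤ 2 * q := by
  have hd : (0 : ℝ) < d := by exact_mod_cast h.dpos
  set s := univ.filter fun k => (1 - κ) * d ^ 2 ≤ μ k with hs
  set φ : Fin s.card → Fin (n * q) := fun j => s.orderEmbOfFin rfl j with hφ
  have hφinj : ∀ j m, φ j = φ m → j = m := fun j m hjm => (s.orderEmbOfFin rfl).injective hjm
  have hmem : ∀ j, (1 - κ) * d ^ 2 ≤ μ (φ j) := by
    intro j
    have := orderEmbOfFin_mem s rfl j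
    exact (mem_filter.1 this).2
  choose η h3 h4 using fun j => partner h (nrm_one hb (φ j)).le
    (κ := κ) (by rw [eig_sq h hb]; exact hmem j)
  have h5 := dim_bound h hσ (fun j => ψ (φ j)) η (by
    intro j k
    rw [hb.orth]
    by_cases hjk : j = k
    · rw [if_pos hjk, if_pos (by rw [hjk])]
    · rw [if_neg hjk, if_neg fun h' => hjk (hφinj j k h')]) h3 hκ h4
  linarith

/-- The total error of the rounding. -/
noncomputable def Tw (n q s : ℕ) (κ ε L ω : ℝ) (a b : ℕ) : ℝ :=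
  2 * ((2 * q + (n * q : ℕ) * (b * (1 - κ) ^ a) ^ 2) / s) + 2 * ω ^ 2 + 4 * ε / (1 - L)

theorem total_error' (h : Xq n d q σ l) (hσ : σ ≤ 1 / 64) (hb : Bs (n * q) (ext q l) ψ μ)
    {x y : ℕ → ℕ} (hx : ∀ u < n, x u < q) (hy : ∀ u < n, y u < q) {ε : ℝ}
    (hε : ε ≤ 1) (hV : V l x y ≤ ε * (d * n)) {κ L ω : ℝ}
    (hκ : κ ≤ 1 / 4096) (hL : L < 1) (hL0 : 0 ≤ L) {a b : ℕ}
    (hab : 1 ≤ ω * (b * L ^ a)) (hω : 0 ≤ ω) {s : ℕ} (hs : 0 < s) :
    ∃ vs : List ℕ, vs.length = s ∧ (∀ v ∈ vs, v < n) ∧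
      ∑ k, ((1 - (1 - (μ k / d ^ 2) ^ a) ^ b) * (vs.map fun v => ψ k (v * q + x v)).sum / s -
      (∑ u ∈ range n, ψ k (u * q + x u)) / n) ^ 2 ≤ Tw n q s κ ε L ω a b / n := by
  have hn : (0 : ℝ) < n := by exact_mod_cast h.npos
  have hd : (0 : ℝ) < d := by exact_mod_cast h.dpos
  have hs' : (0 : ℝ) < s := by exact_mod_cast hs
  obtain ⟨c1, c2⟩ := chi_long h hb hx hy hε hV
  set c : Fin (n * q) → ℝ := fun k => ∑ u ∈ range n, ψ k (u * q + x u) with hc
  set lam : Fin (n * q) → ℝ := fun k => μ k / d ^ 2 with hlam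
  have l0 : ∀ k, 0 ≤ lam k := fun k => div_nonneg (mu_nonneg h hb k) (by positivity)
  have l1 : ∀ k, lam k ≤ 1 := fun k => by
    rw [hlam]
    simp only
    rw [div_le_one (by positivity)]
    exact mu_le h hb k
  set p : Fin (n * q) → ℝ := fun k => 1 - (1 - lam k ^ a) ^ b with hp
  have la0 : ∀ k, 0 ≤ lam k ^ a := fun k => pow_nonneg (l0 k) a
  have la1 : ∀ k, lam k ^ a ≤ 1 := fun k => pow_le_one₀ (l0 k) (l1 k)
  -- the sums of the squares
  set R : Fin (n * q) → ℝ := fun k => ∑ u ∈ range n, ψ k (u * q + x u) ^ 2 with hR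
  have R1 : ∀ k, R k ≤ 1 := by
    intro k
    have h1 : ∑ u ∈ range n, ψ k (u * q + x u) ^ 2 ≤ nrm n q (ψ k) := by
      refine sum_le_sum fun u hu => ?_
      exact single_le_sum (f := fun i => ψ k (u * q + i) ^ 2) (fun j _ => sq_nonneg _)
        (mem_range.2 (hx u (mem_range.1 hu)))
    rwa [nrm_one hb] at h1
  have R0 : ∀ k, 0 ≤ R k := fun k => sum_nonneg fun u _ => sq_nonneg _
  have f1 : ∀ k, p k ^ 2 * R k ≤ (if (1 - κ) * d ^ 2 ≤ μ k then 1 else 0) +
      (b * (1 - κ) ^ a) ^ 2 := by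
    intro k
    obtain ⟨q1, q2, q3, q4⟩ := filt_bounds (la0 k) (la1 k) b
    have hp1 : p k ^ 2 ≤ 1 := pow_le_one₀ q1 q2
    split_ifs with hk
    · have h1 : p k ^ 2 * R k ≤ 1 * 1 := mul_le_mul hp1 (R1 k) (R0 k) (by norm_num)
      have : 0 ≤ (b * (1 - κ) ^ a) ^ 2 := sq_nonneg _
      linarith
    · push Not at hk
      have h1 : lam k ≤ 1 - κ := by
        simp only [hlam]
        rw [div_le_iff₀ (by positivity)]
        exact hk.le
      have h2 : lam k ^ a ≤ (1 - κ) ^ a := pow_le_pow_left₀ (l0 k) h1 a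
      have h3 : p k ≤ b * (1 - κ) ^ a := q3.trans (mul_le_mul_of_nonneg_left h2 (by positivity))
      have h4 : p k ^ 2 ≤ (b * (1 - κ) ^ a) ^ 2 := pow_le_pow_left₀ q1 h3 2
      calc p k ^ 2 * R k ≤ (b * (1 - κ) ^ a) ^ 2 * 1 :=
            mul_le_mul h4 (R1 k) (R0 k) (sq_nonneg _)
        _ = _ := by ring
  have f2 : ∑ k, p k ^ 2 * R k ≤ 2 * q + (n * q : ℕ) * (b * (1 - κ) ^ a) ^ 2 := by
    calc _ ≤ ∑ k : Fin (n * q), ((if (1 - κ) * d ^ 2 ≤ μ k then 1 else 0) +
          (b * (1 - κ) ^ a) ^ 2) := sum_le_sum fun k _ => f1 k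
      _ = (univ.filter fun k => (1 - κ) * d ^ 2 ≤ μ k).card +
          (n * q : ℕ) * (b * (1 - κ) ^ a) ^ 2 := by
          rw [sum_add_distrib, ← sum_filter, sum_const, sum_const, card_univ, Fintype.card_fin,
            nsmul_eq_mul, nsmul_eq_mul, mul_one]
      _ ≤ _ := by
          have := card_large' h hσ hb hκ
          linarith
  set H : ℝ := 2 * q + (n * q : ℕ) * (b * (1 - κ) ^ a) ^ 2 with hH
  -- the vectors with sum zero
  set ξ : ℕ → Fin (n * q) → ℝ := fun v k => p k * ψ k (v * q + x v) - p k * c k / n with hξ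
  have x0 : ∀ k, ∑ v ∈ range n, ξ v k = 0 := by
    intro k
    simp only [hξ]
    rw [sum_sub_distrib, ← mul_sum, sum_const, card_range, nsmul_eq_mul]
    have : ∑ v ∈ range n, ψ k (v * q + x v) = c k := rfl
    rw [this]
    field_simp
    ring
  have x1 : ∑ v ∈ range n, ∑ k, ξ v k ^ 2 ≤ H := by
    rw [sum_comm]
    refine le_trans (sum_le_sum fun k _ => ?_) f2
    have e1 : ∀ v, ξ v k ^ 2 = p k ^ 2 * ψ k (v * q + x v) ^ 2 -
        2 * (p k ^ 2 * c k / n) * ψ k (v * q + x v) + (p k * c k / n) ^ 2 := fun v => by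
      simp only [hξ]
      ring
    simp only [e1]
    rw [sum_add_distrib, sum_sub_distrib, ← mul_sum, ← mul_sum, sum_const, card_range,
      nsmul_eq_mul]
    have e2 : ∑ v ∈ range n, ψ k (v * q + x v) = c k := rfl
    rw [e2]
    have e3 : 2 * (p k ^ 2 * c k / n) * c k = 2 * (n * (p k * c k / n) ^ 2) := by
      field_simp
    have e4 : 0 ≤ n * (p k * c k / n) ^ 2 := by positivity
    have e5 : ∑ i ∈ range n, ψ k (i * q + x i) ^ 2 = R k := rfl
    rw [e3, e5]
    linarith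
  obtain ⟨vs, v1, v2, v3⟩ := exists_tuple h.npos ξ x0 x1 s
  refine ⟨vs, v1, v2, ?_⟩
  have hxi : ∀ k, (vs.map fun v => ξ v k).sum =
      p k * (vs.map fun v => ψ k (v * q + x v)).sum - s * (p k * c k / n) := by
    intro k
    rw [← v1]
    clear v3 v2 v1
    induction vs with
    | nil => simp
    | cons v vs ih =>
      simp only [List.map_cons, List.sum_cons, List.length_cons, ih]
      push_cast
      simp only [hξ]
      ring
  -- the second part
  have g1 : ∀ k, (1 - p k) ^ 2 * c k ^ 2 ≤ ω ^ 2 * c k ^ 2 +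
      (1 - lam k) * c k ^ 2 / (1 - L) := by
    intro k
    obtain ⟨q1, q2, q3, q4⟩ := filt_bounds (la0 k) (la1 k) b
    have hL1 : 0 < 1 - L := by linarith
    have z1 : 0 ≤ (1 - lam k) * c k ^ 2 / (1 - L) := by
      have : 0 ≤ 1 - lam k := by have := l1 k; linarith
      positivity
    have z2 : 0 ≤ ω ^ 2 * c k ^ 2 := by positivity
    rcases le_or_gt L (lam k) with hk | hk
    · have h1 : L ^ a ≤ lam k ^ a := pow_le_pow_left₀ hL0 hk a
      have h2 : 1 - p k ≤ ω := by
        have e5 : 1 - p k = (1 - lam k ^ a) ^ b := by simp only [hp]; ring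
        rw [e5]
        have p0 : 0 ≤ (1 - lam k ^ a) ^ b := pow_nonneg (by have := la1 k; linarith) b
        have h3 : (1 - lam k ^ a) ^ b * (b * L ^ a) ≤ 1 := by
          refine le_trans ?_ q4
          exact mul_le_mul_of_nonneg_left (mul_le_mul_of_nonneg_left h1 (by positivity)) p0
        by_contra hcon
        push Not at hcon
        have hbL : 0 < b * L ^ a := by
          by_contra hz
          push Not at hz
          nlinarith
        nlinarith
      have h3 : (1 - p k) ^ 2 ≤ ω ^ 2 := pow_le_pow_left₀ (by linarith) h2 2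
      have := mul_le_mul_of_nonneg_right h3 (sq_nonneg (c k))
      linarith
    · have h1 : 1 ≤ (1 - lam k) / (1 - L) := by
        rw [le_div_iff₀ hL1]
        linarith
      have h2 : (1 - p k) ^ 2 ≤ 1 := pow_le_one₀ (by linarith) (by linarith)
      have h3 : (1 - p k) ^ 2 * c k ^ 2 ≤ 1 * c k ^ 2 :=
        mul_le_mul_of_nonneg_right h2 (sq_nonneg _)
      have h4 : 1 * c k ^ 2 ≤ (1 - lam k) / (1 - L) * c k ^ 2 :=
        mul_le_mul_of_nonneg_right h1 (sq_nonneg _)
      have h5 : (1 - lam k) / (1 - L) * c k ^ 2 = (1 - lam k) * c k ^ 2 / (1 - L) := by ring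
      linarith
  have g2 : ∑ k, (1 - p k) ^ 2 * c k ^ 2 ≤ ω ^ 2 * n + 2 * ε * n / (1 - L) := by
    calc _ ≤ ∑ k, (ω ^ 2 * c k ^ 2 + (1 - lam k) * c k ^ 2 / (1 - L)) :=
          sum_le_sum fun k _ => g1 k
      _ = ω ^ 2 * n + (n - ∑ k, lam k * c k ^ 2) / (1 - L) := by
          rw [sum_add_distrib, ← mul_sum, c1, ← sum_div]
          congr 2
          have : ∀ k, (1 - lam k) * c k ^ 2 = c k ^ 2 - lam k * c k ^ 2 := fun k => by ring
          simp only [this]
          rw [sum_sub_distrib, c1]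
      _ ≤ _ := by
          have hL1 : 0 < 1 - L := by linarith
          have : (n - ∑ k, lam k * c k ^ 2) / (1 - L) ≤ 2 * ε * n / (1 - L) := by
            refine div_le_div_of_nonneg_right ?_ hL1.le
            linarith
          linarith
  -- together
  have t1 : ∀ k, (p k * (vs.map fun v => ψ k (v * q + x v)).sum / s - c k / n) ^ 2 ≤
      2 / s ^ 2 * ((vs.map fun v => ξ v k).sum) ^ 2 + 2 / n ^ 2 * ((1 - p k) ^ 2 * c k ^ 2) := by
    intro k
    rw [hxi]
    generalize (vs.map fun v => ψ k (v * q + x v)).sum = A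
    have e1 : p k * A / s - c k / n = (p k * A - s * (p k * c k / n)) / s -
        (1 - p k) * c k / n := by
      field_simp
      ring
    rw [e1]
    generalize p k * A - s * (p k * c k / n) = B
    have e2 : 2 / (s : ℝ) ^ 2 * B ^ 2 + 2 / (n : ℝ) ^ 2 * ((1 - p k) ^ 2 * c k ^ 2) =
        2 * (B / s) ^ 2 + 2 * ((1 - p k) * c k / n) ^ 2 := by ring
    rw [e2]
    nlinarith [sq_nonneg (B / s + (1 - p k) * c k / n)]
  refine (sum_le_sum fun k _ => t1 k).trans ?_
  rw [sum_add_distrib, ← mul_sum, ← mul_sum]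
  have t2 : 2 / (s : ℝ) ^ 2 * ∑ k, ((vs.map fun v => ξ v k).sum) ^ 2 ≤
      2 / (s : ℝ) ^ 2 * (s * H / n) := mul_le_mul_of_nonneg_left v3 (by positivity)
  have t3 : 2 / (n : ℝ) ^ 2 * ∑ k, (1 - p k) ^ 2 * c k ^ 2 ≤
      2 / (n : ℝ) ^ 2 * (ω ^ 2 * n + 2 * ε * n / (1 - L)) :=
    mul_le_mul_of_nonneg_left g2 (by positivity)
  refine (add_le_add t2 t3).trans (le_of_eq ?_)
  unfold Tw
  have hL1 : 1 - L ≠ 0 := by linarith
  rw [← hH]
  field_simp
  ring

/-- Some filtered sum of unit vectors rounds to a good labeling. -/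
theorem round_ok' (h : Xq n d q σ l) (hσ : σ ≤ 1 / 64)
    {x y : ℕ → ℕ} (hx : ∀ u < n, x u < q) (hy : ∀ u < n, y u < q) {ε : ℝ}
    (hε : ε ≤ 1) (hV : V l x y ≤ ε * (d * n)) {κ L ω : ℝ}
    (hκ : κ ≤ 1 / 4096) (hL : L < 1) (hL0 : 0 ≤ L) {a b : ℕ}
    (hab : 1 ≤ ω * (b * L ^ a)) (hω : 0 ≤ ω) {s : ℕ} (hs : 0 < s) :
    ∃ rs : List ℕ, rs.length = s ∧ (∀ r ∈ rs, r < n * q) ∧ ∀ f : ℕ → ℕ,
      (∀ u < n, f u < q ∧ ∀ i < q, zw (ext q l) (d ^ (2 * a)) a b rs (u * q + i) ≤
        zw (ext q l) (d ^ (2 * a)) a b rs (u * q + f u)) →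
      ∑ u ∈ range n, df f x u ≤ 2 * Tw n q s κ ε L ω a b * n := by
  have hn : (0 : ℝ) < n := by exact_mod_cast h.npos
  have hd : (0 : ℝ) < d := by exact_mod_cast h.dpos
  have hs' : (0 : ℝ) < s := by exact_mod_cast hs
  obtain ⟨ψ, μ, o1, o2, o3⟩ := exists_basis (ext_lt h)
  have hb : Bs (n * q) (ext q l) ψ μ := ⟨o1, o2, o3⟩
  obtain ⟨vs, v1, v2, hv2⟩ := total_error' h hσ hb hx hy hε hV hκ hL hL0 hab hω hs
  generalize Tw n q s κ ε L ω a b = Θ at hv2
  have hrs : ∀ r ∈ vs.map fun v => v * q + x v, r < n * q := by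
    intro r hr
    obtain ⟨v, hv, rfl⟩ := List.mem_map.1 hr
    exact node_lt (v2 v hv) (hx v (v2 v hv))
  refine ⟨vs.map fun v => v * q + x v, by rw [List.length_map, v1], hrs, fun f hf => ?_⟩
  -- the error in coordinates
  set z : ℕ → ℝ := fun r => zw (ext q l) (d ^ (2 * a)) a b (vs.map fun v => v * q + x v) r / s
    with hz
  have hD : (0 : ℝ) < (d : ℝ) ^ (2 * a) := by positivity
  have hzE : ∑ r ∈ range (n * q), (z r - chi q x r / n) ^ 2 ≤ Θ / n := by
    refine le_trans (le_of_eq ?_) hv2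
    rw [← parseval hb]
    refine sum_congr rfl fun r hr => ?_
    rw [mem_range] at hr
    have e1 := zw_exp (ext_lt h) hb hD a b hrs r hr
    have e2 := chi_exp hb hx r hr
    rw [hz]
    simp only
    rw [e1, e2, sum_div, sum_div, ← sum_sub_distrib]
    congr 1
    refine sum_congr rfl fun k _ => ?_
    have e3 : μ k ^ a / (d : ℝ) ^ (2 * a) = (μ k / d ^ 2) ^ a := by
      rw [div_pow, pow_mul]
    rw [e3, List.map_map]
    have e4 : ((fun r => ψ k r) ∘ fun v => v * q + x v) = fun v => ψ k (v * q + x v) := rfl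
    rw [e4]
    ring
  -- wrong vertices are expensive
  have hw : ∀ u < n, df f x u / (2 * n ^ 2) ≤
      ∑ i ∈ range q, (z (u * q + i) - chi q x (u * q + i) / n) ^ 2 := by
    intro u hu
    rcases df_cases f x u with h0 | h0
    · rw [h0, zero_div]
      exact sum_nonneg fun i _ => sq_nonneg _
    · obtain ⟨hfu, hmax⟩ := hf u hu
      have hne := df_ne h0
      have hm := hmax (x u) (hx u hu)
      have h2 : (z (u * q + x u) - 1 / n) ^ 2 + z (u * q + f u) ^ 2 ≤
          ∑ i ∈ range q, (z (u * q + i) - chi q x (u * q + i) / n) ^ 2 := by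
        have h3 : ({x u, f u} : Finset ℕ) ⊆ range q := by
          intro i hi
          simp only [mem_insert, mem_singleton] at hi
          rcases hi with rfl | rfl
          · exact mem_range.2 (hx u hu)
          · exact mem_range.2 hfu
        refine le_trans (le_of_eq ?_) (sum_le_sum_of_subset_of_nonneg h3 fun i _ _ => sq_nonneg _)
        rw [sum_pair (Ne.symm hne), chi_node x (hx u hu), chi_node x hfu, if_pos rfl,
          if_neg hne]
        ring
      refine le_trans ?_ h2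
      rw [h0, div_le_iff₀ (by positivity)]
      have hm' : z (u * q + x u) ≤ z (u * q + f u) := div_le_div_of_nonneg_right hm hs'.le
      have h5 : 1 ≤ (2 * n ^ 2) * ((z (u * q + x u) - 1 / n) ^ 2 + z (u * q + f u) ^ 2) := by
        have h6 : (2 * (n : ℝ) ^ 2) * ((z (u * q + x u) - 1 / n) ^ 2 + z (u * q + f u) ^ 2) =
            2 * ((n * z (u * q + x u) - 1) ^ 2 + (n * z (u * q + f u)) ^ 2) := by
          have : (n * z (u * q + x u) - 1) = n * (z (u * q + x u) - 1 / n) := by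
            rw [mul_sub]; field_simp
          rw [this]
          ring
        rw [h6]
        have h7 : n * z (u * q + x u) ≤ n * z (u * q + f u) := mul_le_mul_of_nonneg_left hm' hn.le
        generalize n * z (u * q + x u) = A at h7
        generalize n * z (u * q + f u) = B at h7
        nlinarith [sq_nonneg (A + B - 1), sq_nonneg (B - A - 1), sq_nonneg (A - 1 + B)]
      linarith
  have h3 : (∑ u ∈ range n, df f x u) / (2 * n ^ 2) ≤ Θ / n := by
    rw [sum_div]
    refine le_trans ?_ hzE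
    rw [sum_node]
    exact sum_le_sum fun u hu => hw u (mem_range.1 hu)
  rw [div_le_iff₀ (by positivity)] at h3
  refine h3.trans (le_of_eq ?_)
  field_simp

end Main

end Pool.Agent.K6.H49.UGR
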